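import Pool.Agent.H96.FP.C

set_option autoImplicit false

/-! # Sums of a nonnegative function over short intervals around real points: the kernel of Fejér -/

namespace Pool.Agent.H96.FL

open Finset
open Pool.Agent.H469R2.NK (e norm_e e_add e_zero conj_e)

/-- the kernel of Fejér -/
noncomputable def FK (K : ℕ) (t : ℝ) : ℝ := ‖∑ j ∈ range K, e (j * t)‖ ^ 2 / K

lemma FK_nonneg (K : ℕ) (t : ℝ) : 0 ≤ FK K t := by unfold FK; positivity

lemma e_int (n : ℤ) : e (n : ℝ) = 1 := by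
  unfold e
  rw [show ((2 * Real.pi * (n : ℝ) : ℝ) : ℂ) * Complex.I = n * (2 * Real.pi * Complex.I) by push_cast; ring]
  exact Complex.exp_int_mul_two_pi_mul_I n

lemma FK_per (K : ℕ) (t : ℝ) (n : ℤ) : FK K (t + n) = FK K t := by
  unfold FK
  congr 3
  refine sum_congr rfl fun j _ => ?_
  rw [mul_add, e_add]
  have : ((j : ℝ) * (n : ℝ)) = ((j * n : ℤ) : ℝ) := by push_cast; ring
  rw [this, e_int, mul_one]

lemma re_e (x : ℝ) : (e x).re = Real.cos (2 * Real.pi * x) := by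
  unfold e
  rw [Complex.exp_ofReal_mul_I_re]

lemma FK_low (K : ℕ) (hK : 1 ≤ K) (t : ℝ) (ht : |t| * (6 * K) ≤ 1) : (K : ℝ) / 4 ≤ FK K t := by
  have hK0 : (0 : ℝ) < K := by exact_mod_cast hK
  have h1 : ∀ j ∈ range K, (1 : ℝ) / 2 ≤ (e (j * t)).re := by
    intro j hj
    rw [re_e, ← Real.cos_abs, ← Real.cos_pi_div_three]
    have hj' : (j : ℝ) ≤ K := by exact_mod_cast (mem_range.1 hj).le
    have h2 : |2 * Real.pi * (j * t)| = 2 * Real.pi * (j * |t|) := by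
      rw [abs_mul (2 * Real.pi), abs_mul (j : ℝ), abs_of_pos (by positivity : (0 : ℝ) < 2 * Real.pi), Nat.abs_cast]
    rw [h2]
    have h3 : (j : ℝ) * |t| ≤ 1 / 6 := by
      have : (j : ℝ) * |t| ≤ K * |t| := mul_le_mul_of_nonneg_right hj' (abs_nonneg _)
      linarith
    have hpi := Real.pi_pos
    have h4 : 2 * Real.pi * (j * |t|) ≤ Real.pi / 3 := by nlinarith
    apply Real.cos_le_cos_of_nonneg_of_le_pi (by positivity) (by linarith) h4
  have h2 : (K : ℝ) / 2 ≤ ‖∑ j ∈ range K, e (j * t)‖ := by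
    refine le_trans ?_ (Complex.re_le_norm _)
    rw [Complex.re_sum]
    calc (K : ℝ) / 2 = ∑ _j ∈ range K, (1 : ℝ) / 2 := by rw [sum_const, card_range, nsmul_eq_mul]; ring
      _ ≤ _ := sum_le_sum h1
  unfold FK
  rw [le_div_iff₀ hK0]
  have h3 : ((K : ℝ) / 2) ^ 2 ≤ ‖∑ j ∈ range K, e (j * t)‖ ^ 2 := pow_le_pow_left₀ (by positivity) h2 2
  nlinarith

lemma FK_expand (K : ℕ) (t : ℝ) : ((FK K t : ℝ) : ℂ) = (1 / (K : ℂ)) *
    ∑ j ∈ range K, ∑ j' ∈ range K, e (((j : ℤ) - j' : ℤ) * t) := by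
  unfold FK
  push_cast
  rw [← Complex.conj_mul', map_sum, mul_comm ((∑ j ∈ range K, (starRingEnd ℂ) (e (j * t)))), sum_mul_sum]
  rw [div_eq_inv_mul, one_div]
  congr 1
  refine sum_congr rfl fun j _ => sum_congr rfl fun j' _ => ?_
  rw [conj_e, ← e_add]
  congr 1
  ring

/-- the Fourier coefficients -/
noncomputable def cf (Q : ℕ) (G : ZMod Q → ℝ) (r : ℤ) : ℂ :=
  (1 / (Q : ℂ)) * ∑ h ∈ range Q, ((G (h : ZMod Q) : ℝ) : ℂ) * e (-(r * h / Q))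

/-- the smoothed function -/
noncomputable def Psi (Q K : ℕ) (G : ZMod Q → ℝ) (y : ℝ) : ℝ :=
  (1 / (Q : ℝ)) * ∑ h ∈ range Q, G (h : ZMod Q) * FK K ((y - h) / Q)

lemma Psi_expand (Q K : ℕ) (G : ZMod Q → ℝ) (y : ℝ) : ((Psi Q K G y : ℝ) : ℂ) = (1 / (K : ℂ)) *
    ∑ j ∈ range K, ∑ j' ∈ range K, cf Q G ((j : ℤ) - j') * e (((j : ℤ) - j' : ℤ) * y / Q) := by
  unfold Psi cf
  push_cast
  simp only [FK_expand, mul_sum, sum_mul]
  rw [sum_comm]
  refine sum_congr rfl fun j _ => ?_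
  rw [sum_comm]
  refine sum_congr rfl fun j' _ => ?_
  refine sum_congr rfl fun h _ => ?_
  have h1 : e (((j : ℤ) - j' : ℤ) * ((y - h) / Q)) = e (-(((j : ℤ) - j' : ℤ) * h / Q)) * e (((j : ℤ) - j' : ℤ) * y / Q) := by
    rw [← e_add]
    congr 1
    ring
  push_cast at h1 ⊢
  rw [h1]
  ring

lemma sum_shift (K : ℕ) (F : ℤ → ℝ) (hF : ∀ r, 0 ≤ F r) (j : ℕ) (hj : j ∈ range K) :
    ∑ j' ∈ range K, F ((j : ℤ) - j') ≤ ∑ r ∈ Ioo (-(K : ℤ)) K, F r := by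
  have h1 : ∑ j' ∈ range K, F ((j : ℤ) - j') = ∑ r ∈ (range K).image (fun j' : ℕ => (j : ℤ) - j'), F r := by
    rw [sum_image]
    intro a _ b _ hab
    have hab' : (j : ℤ) - a = (j : ℤ) - b := hab
    omega
  rw [h1]
  apply sum_le_sum_of_subset_of_nonneg
  · intro r hr
    obtain ⟨a, ha, rfl⟩ := mem_image.1 hr
    rw [mem_range] at ha hj
    rw [mem_Ioo]
    omega
  · intro r _ _
    exact hF r

theorem Psi_sum (Q K : ℕ) (hK : 1 ≤ K) (G : ZMod Q → ℝ) (Z : Type) [Fintype Z] (y : Z → ℝ) :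
    ∑ z, Psi Q K G (y z) ≤ ∑ r ∈ Ioo (-(K : ℤ)) K, ‖cf Q G r‖ * ‖∑ z, e (r * y z / Q)‖ := by
  have hK0 : (0 : ℝ) < K := by exact_mod_cast hK
  obtain ⟨F, hF⟩ : ∃ F : ℤ → ℝ, F = fun r => ‖cf Q G r‖ * ‖∑ z, e (r * y z / Q)‖ := ⟨_, rfl⟩
  have hF0 : ∀ r, 0 ≤ F r := fun r => by rw [hF]; positivity
  have h1 : ((∑ z, Psi Q K G (y z) : ℝ) : ℂ) = (1 / (K : ℂ)) *
      ∑ j ∈ range K, ∑ j' ∈ range K, cf Q G ((j : ℤ) - j') * ∑ z, e (((j : ℤ) - j' : ℤ) * y z / Q) := by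
    push_cast [Psi_expand]
    rw [← mul_sum]
    congr 1
    rw [sum_comm]
    refine sum_congr rfl fun j _ => ?_
    rw [sum_comm]
    refine sum_congr rfl fun j' _ => ?_
    rw [mul_sum]
  have h2 : |∑ z, Psi Q K G (y z)| = ‖((∑ z, Psi Q K G (y z) : ℝ) : ℂ)‖ := by
    rw [Complex.norm_real, Real.norm_eq_abs]
  have h3 : ‖((∑ z, Psi Q K G (y z) : ℝ) : ℂ)‖ ≤ (1 / (K : ℝ)) * ∑ j ∈ range K, ∑ j' ∈ range K, F ((j : ℤ) - j') := by
    rw [h1, norm_mul]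
    have h4 : ‖(1 / (K : ℂ))‖ = 1 / (K : ℝ) := by simp
    rw [h4]
    apply mul_le_mul_of_nonneg_left _ (by positivity)
    refine (norm_sum_le _ _).trans (sum_le_sum fun j _ => ?_)
    refine (norm_sum_le _ _).trans (sum_le_sum fun j' _ => ?_)
    rw [norm_mul, hF]
  refine (le_abs_self _).trans ?_
  rw [h2]
  refine h3.trans ?_
  have h5 : ∑ j ∈ range K, ∑ j' ∈ range K, F ((j : ℤ) - j') ≤ ∑ _j ∈ range K, ∑ r ∈ Ioo (-(K : ℤ)) K, F r :=
    sum_le_sum fun j hj => sum_shift K F hF0 j hj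
  rw [sum_const, card_range, nsmul_eq_mul] at h5
  have h6 : (1 / (K : ℝ)) * ∑ j ∈ range K, ∑ j' ∈ range K, F ((j : ℤ) - j') ≤
      (1 / (K : ℝ)) * (K * ∑ r ∈ Ioo (-(K : ℤ)) K, F r) := mul_le_mul_of_nonneg_left h5 (by positivity)
  have h7 : (1 / (K : ℝ)) * (K * ∑ r ∈ Ioo (-(K : ℤ)) K, F r) = ∑ r ∈ Ioo (-(K : ℤ)) K, F r := by
    field_simp
  rw [h7] at h6
  rw [hF] at h6 ⊢
  exact h6

theorem Psi_low (Q K : ℕ) (hQ : 1 ≤ Q) (hK : 1 ≤ K) (G : ZMod Q → ℝ) (hG : ∀ h, 0 ≤ G h) (y : ℝ) (W : Finset ℤ)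
    (hW : ∀ h ∈ W, |(h : ℝ) - y| * (6 * K) ≤ Q) :
    (K : ℝ) / 4 * ∑ h ∈ W, G (h : ZMod Q) ≤ Q * Psi Q K G y := by
  have hQ0 : (0 : ℝ) < Q := by exact_mod_cast hQ
  have hK1 : (1 : ℝ) ≤ K := by exact_mod_cast hK
  have hQz : (0 : ℤ) < Q := by exact_mod_cast hQ
  have e1 : Q * Psi Q K G y = ∑ h ∈ range Q, G (h : ZMod Q) * FK K ((y - h) / Q) := by
    unfold Psi
    field_simp
  rw [e1]
  obtain ⟨F, hF⟩ : ∃ F : ℕ → ℝ, F = fun h : ℕ => G (h : ZMod Q) * FK K ((y - h) / Q) := ⟨_, rfl⟩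
  have hF0 : ∀ h, 0 ≤ F h := fun h => by rw [hF]; exact mul_nonneg (hG _) (FK_nonneg _ _)
  have h1 : ∀ h ∈ W, (K : ℝ) / 4 * G (h : ZMod Q) ≤ F (h % Q).toNat := by
    intro h hh
    have h2 : ((h % Q).toNat : ℤ) = h % Q := Int.toNat_of_nonneg (Int.emod_nonneg _ hQz.ne')
    have h3 : (((h % Q).toNat : ℕ) : ZMod Q) = (h : ZMod Q) := by
      have h4 : ((((h % Q).toNat : ℕ) : ℤ) : ZMod Q) = ((h % Q : ℤ) : ZMod Q) := by rw [h2]
      rw [Int.cast_natCast] at h4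
      rw [h4]
      exact (ZMod.intCast_mod h Q)
    have h5 : (y - (((h % Q).toNat : ℕ) : ℝ)) / (Q : ℝ) = (y - h) / Q + ((h / Q : ℤ) : ℝ) := by
      have h6 : (((h % Q).toNat : ℕ) : ℝ) = (h : ℝ) - Q * ((h / Q : ℤ) : ℝ) := by
        have h7 : (((h % Q).toNat : ℕ) : ℝ) = ((h % Q : ℤ) : ℝ) := by exact_mod_cast congrArg (fun x : ℤ => (x : ℝ)) h2
        have h8 : (h % Q : ℤ) = h - Q * (h / Q) := Int.emod_def h Q
        rw [h7, h8]
        push_cast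
        ring
      rw [h6]
      field_simp
      ring
    rw [hF]
    simp only
    rw [h3, h5, FK_per, mul_comm]
    apply mul_le_mul_of_nonneg_left _ (hG _)
    apply FK_low K hK
    rw [abs_div, abs_of_pos hQ0, abs_sub_comm]
    rw [div_mul_eq_mul_div, div_le_one hQ0]
    exact hW h hh
  rw [mul_sum]
  refine (sum_le_sum h1).trans ?_
  have h2 : ∑ h ∈ W, F (h % Q).toNat = ∑ n ∈ W.image (fun h : ℤ => (h % Q).toNat), F n := by
    rw [sum_image]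
    intro a ha b hb hab
    have hab' : (a % Q).toNat = (b % Q).toNat := hab
    have h3 : ((a % Q).toNat : ℤ) = a % Q := Int.toNat_of_nonneg (Int.emod_nonneg _ hQz.ne')
    have h4 : ((b % Q).toNat : ℤ) = b % Q := Int.toNat_of_nonneg (Int.emod_nonneg _ hQz.ne')
    have h5 : a % Q = b % Q := by rw [← h3, ← h4, hab']
    have h6 : (Q : ℤ) ∣ a - b := Int.ModEq.dvd (show b ≡ a [ZMOD Q] from h5.symm)
    obtain ⟨t, ht⟩ := h6
    have h7 := hW a ha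
    have h8 := hW b hb
    have h9 : |(a : ℝ) - b| * 3 ≤ Q := by
      have h10 : |(a : ℝ) - b| ≤ |(a : ℝ) - y| + |(b : ℝ) - y| := by
        have := abs_sub_le (a : ℝ) y b
        rw [abs_sub_comm y] at this
        exact this
      have h11 : |(a : ℝ) - y| * 6 ≤ Q := by
        have := abs_nonneg ((a : ℝ) - y)
        nlinarith
      have h12 : |(b : ℝ) - y| * 6 ≤ Q := by
        have := abs_nonneg ((b : ℝ) - y)
        nlinarith
      linarith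
    have h10 : (a : ℝ) - b = Q * t := by exact_mod_cast congrArg (fun x : ℤ => (x : ℝ)) ht
    rw [h10, abs_mul, abs_of_pos hQ0] at h9
    have h11 : |(t : ℝ)| < 1 := by
      by_contra hcon
      push Not at hcon
      nlinarith
    have h12 : |t| < 1 := by exact_mod_cast h11
    have h13 : t = 0 := Int.abs_lt_one_iff.1 h12
    rw [h13, mul_zero] at ht
    linarith
  rw [h2]
  have e2 : (∑ h ∈ range Q, G (h : ZMod Q) * FK K ((y - h) / Q)) = ∑ h ∈ range Q, F h := by rw [hF]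
  rw [e2]
  apply sum_le_sum_of_subset_of_nonneg
  · intro n hn
    obtain ⟨a, _, rfl⟩ := mem_image.1 hn
    rw [mem_range]
    have h3 : ((a % Q).toNat : ℤ) = a % Q := Int.toNat_of_nonneg (Int.emod_nonneg _ hQz.ne')
    have h4 := Int.emod_lt_of_pos a hQz
    omega
  · intro n _ _
    exact hF0 n

end Pool.Agent.H96.FL
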