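import Pool.Agent.H96.FL.A

set_option autoImplicit false

/-! # Correlations have an absolutely convergent Fourier expansion -/

namespace Pool.Agent.H96.FL

open Finset
open Pool.Agent.H469R2.NK (e norm_e e_add e_zero conj_e)

variable {Q : ℕ} [NeZero Q]

/-- the Fourier transform -/
noncomputable def ft (f : ZMod Q → ℂ) (ξ : ZMod Q) : ℂ := ∑ j, ZMod.stdAddChar (-(j * ξ)) * f j

lemma conj_psi (x : ZMod Q) : (starRingEnd ℂ) (ZMod.stdAddChar x) = ZMod.stdAddChar (-x) :=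
  (AddChar.map_neg_eq_conj _ _).symm

lemma norm_psi (x : ZMod Q) : ‖(ZMod.stdAddChar x : ℂ)‖ = 1 := AddChar.norm_apply _ _

lemma ft_inv (f : ZMod Q → ℂ) (k : ZMod Q) : ∑ ξ, ZMod.stdAddChar (k * ξ) * ft f ξ = Q * f k := by
  unfold ft
  simp only [mul_sum]
  rw [sum_comm]
  have h1 : ∀ j : ZMod Q, ∑ ξ : ZMod Q, ZMod.stdAddChar (k * ξ) * (ZMod.stdAddChar (-(j * ξ)) * f j) =
      (if k - j = 0 then (Q : ℂ) else 0) * f j := by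
    intro j
    have h2 : ∀ ξ : ZMod Q, ZMod.stdAddChar (k * ξ) * (ZMod.stdAddChar (-(j * ξ)) * f j) =
        ZMod.stdAddChar (ξ * (k - j)) * f j := by
      intro ξ
      rw [← mul_assoc, ← AddChar.map_add_eq_mul]
      congr 2
      ring
    rw [sum_congr rfl fun ξ _ => h2 ξ, ← sum_mul]
    congr 1
    have h3 := AddChar.sum_mulShift (R' := ℂ) (k - j) (ZMod.isPrimitive_stdAddChar Q)
    rw [h3]
    simp [ZMod.card]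
  rw [sum_congr rfl fun j _ => h1 j]
  rw [sum_eq_single k]
  · simp
  · intro j _ hj
    rw [if_neg (sub_ne_zero.2 (Ne.symm hj)), zero_mul]
  · intro h
    exact absurd (mem_univ _) h

lemma parseval (f : ZMod Q → ℂ) : ∑ ξ, ‖ft f ξ‖ ^ 2 = Q * ∑ j, ‖f j‖ ^ 2 := by
  have h1 : ((∑ ξ, ‖ft f ξ‖ ^ 2 : ℝ) : ℂ) = ((Q * ∑ j, ‖f j‖ ^ 2 : ℝ) : ℂ) := by
    push_cast
    have h2 : ∀ ξ : ZMod Q, (‖ft f ξ‖ : ℂ) ^ 2 = ∑ j, ZMod.stdAddChar (-(j * ξ)) * f j * (starRingEnd ℂ) (ft f ξ) := by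
      intro ξ
      rw [← sum_mul, ← Complex.mul_conj']
      rfl
    rw [sum_congr rfl fun ξ _ => h2 ξ, sum_comm, mul_sum]
    refine sum_congr rfl fun j _ => ?_
    have h3 : ∑ ξ, ZMod.stdAddChar (-(j * ξ)) * f j * (starRingEnd ℂ) (ft f ξ) =
        f j * (starRingEnd ℂ) (∑ ξ, ZMod.stdAddChar (j * ξ) * ft f ξ) := by
      rw [map_sum, mul_sum]
      refine sum_congr rfl fun ξ _ => ?_
      rw [map_mul, conj_psi]
      ring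
    rw [h3, ft_inv, map_mul, ← Complex.mul_conj', Complex.conj_natCast]
    ring
  exact_mod_cast h1

/-- the correlation -/
noncomputable def cor (a b : ZMod Q → ℂ) (h : ZMod Q) : ℂ := ∑ m, a m * b (m + h)

lemma ft_cor (a b : ZMod Q → ℂ) (ξ : ZMod Q) : ft (cor a b) ξ = ft a (-ξ) * ft b ξ := by
  have h0 : ft (cor a b) ξ = ∑ j, ∑ m, ZMod.stdAddChar (-(j * ξ)) * (a m * b (m + j)) := by
    unfold cor ft
    exact sum_congr rfl fun j _ => mul_sum _ _ _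
  rw [h0]
  unfold ft
  rw [sum_comm, sum_mul]
  refine sum_congr rfl fun m _ => ?_
  have h1 : ∑ j, ZMod.stdAddChar (-(j * ξ)) * b j = ∑ j, ZMod.stdAddChar (-((m + j) * ξ)) * b (m + j) :=
    (Equiv.sum_comp (Equiv.addLeft m) (fun j => ZMod.stdAddChar (-(j * ξ)) * b j)).symm
  rw [h1, mul_sum]
  refine sum_congr rfl fun j _ => ?_
  have h2 : ZMod.stdAddChar (-(j * ξ)) = ZMod.stdAddChar (-(m * -ξ)) * ZMod.stdAddChar (-((m + j) * ξ)) := by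
    rw [← AddChar.map_add_eq_mul]
    congr 1
    ring
  rw [h2]
  ring

lemma ft_sq (D : ZMod Q → ℂ) (r : ZMod Q) : Q * ft (fun h => ((‖D h‖ ^ 2 : ℝ) : ℂ)) r =
    ∑ ξ, ft D ξ * (starRingEnd ℂ) (ft D (ξ - r)) := by
  have h1 : Q * ft (fun h => ((‖D h‖ ^ 2 : ℝ) : ℂ)) r =
      ∑ h, ZMod.stdAddChar (-(h * r)) * (starRingEnd ℂ) (D h) * (Q * D h) := by
    unfold ft
    rw [mul_sum]
    refine sum_congr rfl fun h _ => ?_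
    push_cast
    rw [← Complex.mul_conj']
    ring
  rw [h1]
  have h2 : ∀ h : ZMod Q, ZMod.stdAddChar (-(h * r)) * (starRingEnd ℂ) (D h) * (Q * D h) =
      ∑ ξ, ft D ξ * (ZMod.stdAddChar (h * (ξ - r)) * (starRingEnd ℂ) (D h)) := by
    intro h
    rw [← ft_inv D h, mul_sum]
    refine sum_congr rfl fun ξ _ => ?_
    have h3 : (ZMod.stdAddChar (h * (ξ - r)) : ℂ) = ZMod.stdAddChar (-(h * r)) * ZMod.stdAddChar (h * ξ) := by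
      rw [← AddChar.map_add_eq_mul]
      congr 1
      ring
    rw [h3]
    ring
  rw [sum_congr rfl fun h _ => h2 h, sum_comm]
  refine sum_congr rfl fun ξ _ => ?_
  rw [← mul_sum]
  congr 1
  unfold ft
  rw [map_sum]
  refine sum_congr rfl fun h _ => ?_
  rw [map_mul (starRingEnd ℂ), conj_psi, neg_neg]

theorem l1_sq (D : ZMod Q → ℂ) : Q * ∑ r, ‖ft (fun h => ((‖D h‖ ^ 2 : ℝ) : ℂ)) r‖ ≤ (∑ ξ, ‖ft D ξ‖) ^ 2 := by
  have h1 : ∀ r : ZMod Q, Q * ‖ft (fun h => ((‖D h‖ ^ 2 : ℝ) : ℂ)) r‖ ≤ ∑ ξ, ‖ft D ξ‖ * ‖ft D (ξ - r)‖ := by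
    intro r
    have h2 : Q * ‖ft (fun h => ((‖D h‖ ^ 2 : ℝ) : ℂ)) r‖ = ‖(Q : ℂ) * ft (fun h => ((‖D h‖ ^ 2 : ℝ) : ℂ)) r‖ := by
      rw [norm_mul, Complex.norm_natCast]
    rw [h2, ft_sq]
    refine (norm_sum_le _ _).trans (sum_le_sum fun ξ _ => ?_)
    rw [norm_mul, RCLike.norm_conj]
  rw [mul_sum]
  refine (sum_le_sum fun r _ => h1 r).trans (le_of_eq ?_)
  rw [sum_comm, sq, sum_mul]
  refine sum_congr rfl fun ξ _ => ?_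
  rw [← mul_sum]
  congr 1
  exact Equiv.sum_comp (Equiv.subLeft ξ) (fun r => ‖ft D r‖)

theorem l1_cor (a b : ZMod Q → ℂ) : ∑ r, ‖ft (fun h => ((‖cor a b h‖ ^ 2 : ℝ) : ℂ)) r‖ ≤
    Q * ((∑ j, ‖a j‖ ^ 2) * ∑ j, ‖b j‖ ^ 2) := by
  have hQ : (0 : ℝ) < Q := by exact_mod_cast Nat.pos_of_ne_zero (NeZero.ne Q)
  have h1 := l1_sq (cor a b)
  have h2 : (∑ ξ, ‖ft (cor a b) ξ‖) ^ 2 ≤ (∑ ξ, ‖ft a (-ξ)‖ ^ 2) * ∑ ξ, ‖ft b ξ‖ ^ 2 := by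
    have h3 : ∑ ξ, ‖ft (cor a b) ξ‖ = ∑ ξ, ‖ft a (-ξ)‖ * ‖ft b ξ‖ :=
      sum_congr rfl fun ξ _ => by rw [ft_cor, norm_mul]
    rw [h3]
    exact sum_mul_sq_le_sq_mul_sq _ _ _
  have h3 : ∑ ξ, ‖ft a (-ξ)‖ ^ 2 = ∑ ξ, ‖ft a ξ‖ ^ 2 := Equiv.sum_comp (Equiv.neg (ZMod Q)) (fun ξ => ‖ft a ξ‖ ^ 2)
  rw [h3, parseval, parseval] at h2
  have h4 : Q * ∑ r, ‖ft (fun h => ((‖cor a b h‖ ^ 2 : ℝ) : ℂ)) r‖ ≤ Q * (Q * ((∑ j, ‖a j‖ ^ 2) * ∑ j, ‖b j‖ ^ 2)) := by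
    refine (h1.trans h2).trans (le_of_eq ?_)
    ring
  exact le_of_mul_le_mul_left h4 hQ

theorem l2_cor (a b : ZMod Q → ℂ) (S : ℝ) (hS : ∀ ξ, ‖ft b ξ‖ ≤ S) :
    ∑ h, ‖cor a b h‖ ^ 2 ≤ S ^ 2 * ∑ j, ‖a j‖ ^ 2 := by
  have hQ : (0 : ℝ) < Q := by exact_mod_cast Nat.pos_of_ne_zero (NeZero.ne Q)
  have h1 := parseval (cor a b)
  have h2 : ∑ ξ, ‖ft (cor a b) ξ‖ ^ 2 ≤ S ^ 2 * (Q * ∑ j, ‖a j‖ ^ 2) := by
    rw [← parseval a]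
    have h3 : ∑ ξ, ‖ft a (-ξ)‖ ^ 2 = ∑ ξ, ‖ft a ξ‖ ^ 2 := Equiv.sum_comp (Equiv.neg (ZMod Q)) (fun ξ => ‖ft a ξ‖ ^ 2)
    rw [← h3, mul_sum]
    refine sum_le_sum fun ξ _ => ?_
    rw [ft_cor, norm_mul, mul_pow, mul_comm]
    exact mul_le_mul_of_nonneg_right (pow_le_pow_left₀ (norm_nonneg _) (hS ξ) 2) (by positivity)
  rw [h1] at h2
  have h3 : Q * ∑ h, ‖cor a b h‖ ^ 2 ≤ Q * (S ^ 2 * ∑ j, ‖a j‖ ^ 2) := h2.trans (le_of_eq (by ring))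
  exact le_of_mul_le_mul_left h3 hQ

lemma sum_range_zmod {E : Type*} [AddCommMonoid E] (f : ZMod Q → E) : ∑ h ∈ range Q, f (h : ZMod Q) = ∑ h, f h := by
  refine sum_nbij' (fun n : ℕ => (n : ZMod Q)) (fun x : ZMod Q => x.val) ?_ ?_ ?_ ?_ ?_
  · intro n _
    exact mem_univ _
  · intro x _
    exact mem_range.2 (ZMod.val_lt x)
  · intro n hn
    exact ZMod.val_cast_of_lt (mem_range.1 hn)
  · intro x _
    exact ZMod.natCast_zmod_val x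
  · intro n _
    rfl

lemma psi_e (n : ℤ) : (ZMod.stdAddChar ((n : ℤ) : ZMod Q) : ℂ) = e (n / Q) := by
  rw [ZMod.stdAddChar_coe]
  unfold e
  congr 1
  push_cast
  ring

lemma cf_eq (G : ZMod Q → ℝ) (r : ℤ) : cf Q G r = (1 / (Q : ℂ)) * ft (fun h => ((G h : ℝ) : ℂ)) (r : ZMod Q) := by
  unfold cf
  congr 1
  unfold ft
  rw [← sum_range_zmod (fun j => ZMod.stdAddChar (-(j * (r : ZMod Q))) * ((G j : ℝ) : ℂ))]
  refine sum_congr rfl fun h _ => ?_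
  have h1 : (-((h : ZMod Q) * (r : ZMod Q)) : ZMod Q) = ((-(h * r) : ℤ) : ZMod Q) := by push_cast; ring
  rw [h1, psi_e, mul_comm]
  congr 2
  push_cast
  ring

theorem cf_l1 (a b : ZMod Q → ℂ) (R : Finset ℤ) (hR : ∀ r ∈ R, 2 * |r| < Q) :
    ∑ r ∈ R, ‖cf Q (fun h => ‖cor a b h‖ ^ 2) r‖ ≤ (∑ j, ‖a j‖ ^ 2) * ∑ j, ‖b j‖ ^ 2 := by
  classical
  have hQ : (0 : ℝ) < Q := by exact_mod_cast Nat.pos_of_ne_zero (NeZero.ne Q)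
  have h1 : ∀ r : ℤ, ‖cf Q (fun h => ‖cor a b h‖ ^ 2) r‖ = (1 / (Q : ℝ)) * ‖ft (fun h => ((‖cor a b h‖ ^ 2 : ℝ) : ℂ)) (r : ZMod Q)‖ := by
    intro r
    rw [cf_eq, norm_mul]
    simp
  rw [sum_congr rfl fun r _ => h1 r, ← mul_sum]
  have h2 : ∑ r ∈ R, ‖ft (fun h => ((‖cor a b h‖ ^ 2 : ℝ) : ℂ)) (r : ZMod Q)‖ =
      ∑ s ∈ R.image (fun r : ℤ => (r : ZMod Q)), ‖ft (fun h => ((‖cor a b h‖ ^ 2 : ℝ) : ℂ)) s‖ := by
    rw [sum_image]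
    intro r hr s hs hrs
    have hrs' : ((r : ℤ) : ZMod Q) = (s : ZMod Q) := hrs
    rw [ZMod.intCast_eq_intCast_iff_dvd_sub] at hrs'
    obtain ⟨t, ht⟩ := hrs'
    have h3 := hR r hr
    have h4 := hR s hs
    have h5 : |s - r| < Q := by
      have := abs_sub s r
      omega
    rw [ht, abs_mul] at h5
    have h6 : |t| < 1 := by
      by_contra hcon
      push Not at hcon
      have h7 : |(Q : ℤ)| = Q := abs_of_nonneg (by positivity)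
      rw [h7] at h5
      have h8 : (0 : ℤ) < Q := by exact_mod_cast Nat.pos_of_ne_zero (NeZero.ne Q)
      nlinarith
    have h7 : t = 0 := Int.abs_lt_one_iff.1 h6
    rw [h7, mul_zero] at ht
    omega
  rw [h2]
  have h3 : ∑ s ∈ R.image (fun r : ℤ => (r : ZMod Q)), ‖ft (fun h => ((‖cor a b h‖ ^ 2 : ℝ) : ℂ)) s‖ ≤
      ∑ s, ‖ft (fun h => ((‖cor a b h‖ ^ 2 : ℝ) : ℂ)) s‖ :=
    sum_le_sum_of_subset_of_nonneg (subset_univ _) fun _ _ _ => norm_nonneg _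
  have h4 := h3.trans (l1_cor a b)
  calc (1 / (Q : ℝ)) * ∑ s ∈ R.image (fun r : ℤ => (r : ZMod Q)), ‖ft (fun h => ((‖cor a b h‖ ^ 2 : ℝ) : ℂ)) s‖ ≤
      (1 / (Q : ℝ)) * (Q * ((∑ j, ‖a j‖ ^ 2) * ∑ j, ‖b j‖ ^ 2)) := mul_le_mul_of_nonneg_left h4 (by positivity)
    _ = _ := by field_simp

lemma cf_le (G : ZMod Q → ℝ) (hG : ∀ h, 0 ≤ G h) (r : ℤ) : ‖cf Q G r‖ ≤ (1 / (Q : ℝ)) * ∑ h, G h := by
  unfold cf
  rw [norm_mul]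
  have h1 : ‖(1 / (Q : ℂ))‖ = 1 / (Q : ℝ) := by simp
  rw [h1]
  apply mul_le_mul_of_nonneg_left _ (by positivity)
  rw [← sum_range_zmod G]
  refine (norm_sum_le _ _).trans (sum_le_sum fun h _ => ?_)
  rw [norm_mul, norm_e, mul_one, Complex.norm_real, Real.norm_eq_abs, abs_of_nonneg (hG _)]

end Pool.Agent.H96.FL
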