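import Pool.Agent.H96.FL.B

set_option autoImplicit false

/-! # Families `α v + g + β` with real `α`, arbitrary `g`: the exceptional `α` -/

namespace Pool.Agent.H96.FL

open Finset
open Pool.Agent.H469R2.NK (e norm_e e_add e_zero conj_e)
open Pool.Agent.Helper112 (lsSep)
open Pool.Agent.TH935.GF (En)
open Pool.Agent.H96.FP (sieve_energy lsSep_of)

/-- Every interval of length `1` meets `E` in a set which is covered by at most `n` intervals of radius `δ`. -/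
def Cov (E : Set ℝ) (n δ : ℝ) : Prop :=
  ∀ x : ℝ, ∃ T : Finset ℝ, (T.card : ℝ) ≤ n ∧ ∀ α ∈ E, x ≤ α → α ≤ x + 1 → ∃ t ∈ T, |α - t| ≤ δ

lemma Cov.mono {E E' : Set ℝ} {n n' δ δ' : ℝ} (h : Cov E n δ) (hE : E' ⊆ E) (hn : n ≤ n') (hδ : δ ≤ δ') : Cov E' n' δ' := by
  intro x
  obtain ⟨T, h1, h2⟩ := h x
  refine ⟨T, h1.trans hn, fun α hα h3 h4 => ?_⟩
  obtain ⟨t, ht, h5⟩ := h2 α (hE hα) h3 h4
  exact ⟨t, ht, h5.trans hδ⟩

open Classical in
lemma Cov.iUnion {ι : Type} (s : Finset ι) (E : ι → Set ℝ) (n δ : ℝ) (h : ∀ i ∈ s, Cov (E i) n δ) :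
    Cov (⋃ i ∈ s, E i) (s.card * n) δ := by
  intro x
  choose! T h1 h2 using fun i (hi : i ∈ s) => h i hi x
  refine ⟨s.biUnion T, ?_, ?_⟩
  · have h3 : ((s.biUnion T).card : ℝ) ≤ ∑ i ∈ s, ((T i).card : ℝ) := by exact_mod_cast card_biUnion_le
    refine h3.trans ((sum_le_sum h1).trans (le_of_eq ?_))
    rw [sum_const, nsmul_eq_mul]
  · intro α hα h3 h4
    rw [Set.mem_iUnion₂] at hα
    obtain ⟨i, hi, hαi⟩ := hα
    obtain ⟨t, ht, h5⟩ := h2 i hi α hαi h3 h4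
    exact ⟨t, mem_biUnion.2 ⟨i, hi, ht⟩, h5⟩

open Classical in
lemma cov_of_sep (E : Set ℝ) (n δ : ℝ) (hδ : 0 ≤ δ) (h : ∀ x : ℝ, ∀ A : Finset ℝ, (∀ a ∈ A, a ∈ E ∧ x ≤ a ∧ a ≤ x + 1) →
    (∀ a ∈ A, ∀ b ∈ A, a ≠ b → δ < |b - a|) → (A.card : ℝ) ≤ n) : Cov E n δ := by
  intro x
  obtain ⟨P, hP⟩ : ∃ P : ℕ → Prop, P = fun k => ∃ A : Finset ℝ, A.card = k ∧ (∀ a ∈ A, a ∈ E ∧ x ≤ a ∧ a ≤ x + 1) ∧
    (∀ a ∈ A, ∀ b ∈ A, a ≠ b → δ < |b - a|) := ⟨_, rfl⟩
  have h0 : P 0 := by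
    rw [hP]
    exact ⟨∅, card_empty, by simp, by simp⟩
  have h1 : P (Nat.findGreatest P ⌊n⌋₊) := Nat.findGreatest_spec (Nat.zero_le _) h0
  have h2 : ∀ k, Nat.findGreatest P ⌊n⌋₊ < k → ¬ P k := by
    intro k hk hPk
    have h3 : k ≤ ⌊n⌋₊ := by
      rw [hP] at hPk
      obtain ⟨A, hA1, hA2, hA3⟩ := hPk
      have := h x A hA2 hA3
      rw [hA1] at this
      exact Nat.le_floor this
    exact Nat.findGreatest_is_greatest hk h3 hPk
  generalize Nat.findGreatest P ⌊n⌋₊ = k at h1 h2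
  rw [hP] at h1
  obtain ⟨A, hA1, hA2, hA3⟩ := h1
  refine ⟨A, h x A hA2 hA3, fun α hα h3 h4 => ?_⟩
  by_contra hcon
  push Not at hcon
  apply h2 (k + 1) (Nat.lt_succ_self k)
  rw [hP]
  have hαA : α ∉ A := by
    intro hmem
    have := hcon α hmem
    rw [sub_self, abs_zero] at this
    linarith
  refine ⟨insert α A, by rw [card_insert_of_notMem hαA, hA1], ?_, ?_⟩
  · intro a ha
    rcases mem_insert.1 ha with rfl | ha
    · exact ⟨hα, h3, h4⟩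
    · exact hA2 a ha
  · intro a ha b hb hab
    rcases mem_insert.1 ha with ha' | ha'
    · rcases mem_insert.1 hb with hb' | hb'
      · exact absurd (ha'.trans hb'.symm) hab
      · have := hcon b hb'
        rwa [ha', abs_sub_comm]
    · rcases mem_insert.1 hb with hb' | hb'
      · rw [hb']
        exact hcon a ha'
      · exact hA3 a ha' b hb' hab

/-- the number of separated exceptional factors -/
lemma few_sep (p N : ℕ) (hN : 2 ≤ N) (Q : ℕ) (hQ : 1 ≤ Q) (R₀ Λ M X : ℝ) (hR₀ : 0 < R₀) (hΛ : 0 < Λ)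
    (hX : 0 ≤ X) (Z : Type) [Fintype Z] (v : Z → ℤ) (hv : ∀ z, |v z| ≤ N) (g : Z → ℝ)
    (hE : (En p v : ℝ) * N ≤ X * (Fintype.card Z : ℝ) ^ (2 * p))
    (R : Finset ℤ) (hR : ∀ r ∈ R, R₀ ≤ |(r : ℝ)| ∧ 2 * |r| < Q) (w : ℤ → ℝ) (hw : ∀ r, 0 ≤ w r) (hwM : ∑ r ∈ R, w r ≤ M)
    (x : ℝ) (A : Finset ℝ) (hA : ∀ a ∈ A, x ≤ a ∧ a ≤ x + 1)
    (hsep : ∀ a ∈ A, ∀ b ∈ A, a ≠ b → Q / (R₀ * N) < |b - a|)
    (hbad : ∀ a ∈ A, M * Fintype.card Z < Λ * ∑ r ∈ R, w r * ‖∑ z, e (r * (a * v z + g z) / Q)‖) :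
    (A.card : ℝ) ≤ 12 * (p + 1) * X * Λ ^ (2 * p) := by
  have hN1 : (2 : ℝ) ≤ N := by exact_mod_cast hN
  have hN0 : (0 : ℝ) < N := by linarith
  have hQ0 : (0 : ℝ) < Q := by exact_mod_cast hQ
  rcases A.eq_empty_or_nonempty with rfl | ⟨a₀, ha₀⟩
  · rw [card_empty]
    push_cast
    positivity
  obtain ⟨Y, hY⟩ : ∃ Y : ℝ, Y = (Fintype.card Z : ℝ) := ⟨_, rfl⟩
  have hY0 : 0 ≤ Y := by rw [hY]; positivity
  obtain ⟨V, hV⟩ : ∃ V : ℝ, V = ∑ r ∈ R, w r := ⟨_, rfl⟩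
  rw [← hY] at hE hbad
  have hV0 : 0 < V := by
    rcases (sum_nonneg fun r _ => hw r : (0 : ℝ) ≤ ∑ r ∈ R, w r).lt_or_eq with h | h
    · rw [hV]; exact h
    · exfalso
      have h1 : ∀ r ∈ R, w r = 0 := (sum_eq_zero_iff_of_nonneg fun r _ => hw r).1 h.symm
      have h2 := hbad a₀ ha₀
      rw [sum_eq_zero fun r hr => by rw [h1 r hr, zero_mul], mul_zero] at h2
      have h3 : 0 ≤ M := by rw [← h] at hwM; exact hwM
      nlinarith
  have hVM : V ≤ M := by rw [hV]; exact hwM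
  obtain ⟨S, hS⟩ : ∃ S : ℤ → ℝ → ℝ, S = fun (r : ℤ) a => ‖∑ z, e (r * (a * v z + g z) / Q)‖ := ⟨_, rfl⟩
  have hS0 : ∀ r a, 0 ≤ S r a := fun r a => by rw [hS]; exact norm_nonneg _
  have h1 : ∀ a ∈ A, (Y / Λ) ^ (2 * p) ≤ ∑ r ∈ R, w r / V * S r a ^ (2 * p) := by
    intro a ha
    have h2 := hbad a ha
    have h3 : Y / Λ ≤ ∑ r ∈ R, w r / V * S r a := by
      rw [div_le_iff₀ hΛ]
      have h4 : ∑ r ∈ R, w r / V * S r a = (∑ r ∈ R, w r * S r a) / V := by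
        rw [sum_div]
        exact sum_congr rfl fun r _ => by ring
      rw [h4, div_mul_eq_mul_div, le_div_iff₀ hV0]
      rw [hS]
      calc Y * V ≤ M * Y := by nlinarith
        _ ≤ _ := by linarith
    refine (pow_le_pow_left₀ (by positivity) h3 _).trans ?_
    apply Real.pow_arith_mean_le_arith_mean_pow
    · intro r _
      exact div_nonneg (hw r) hV0.le
    · rw [← sum_div, ← hV, div_self hV0.ne']
    · intro r _
      exact hS0 r a
  have h2 : ∀ r ∈ R, ∑ a ∈ A, S r a ^ (2 * p) ≤ 12 * (p + 1) * (X * Y ^ (2 * p)) := by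
    intro r hr
    obtain ⟨hr1, hr2⟩ := hR r hr
    have hr2' : 2 * |(r : ℝ)| < Q := by exact_mod_cast hr2
    have hsep' : ∀ a ∈ A, ∀ b ∈ A, a ≠ b → lsSep N (r * b / Q - r * a / Q) := by
      intro a ha b hb hab
      apply lsSep_of
      have h3 := hsep a ha b hb hab
      have h4 : |b - a| ≤ 1 := by
        rw [abs_le]
        have h5 := hA a ha
        have h6 := hA b hb
        constructor <;> linarith
      have h5 : (r : ℝ) * b / Q - r * a / Q = r * (b - a) / Q := by ring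
      rw [h5]
      have h6 : |(r : ℝ) * (b - a) / Q| = |(r : ℝ)| * |b - a| / Q := by
        rw [abs_div, abs_mul, abs_of_pos hQ0]
      have h7 : |(r : ℝ) * (b - a) / Q| ≤ 1 / 2 := by
        rw [h6, div_le_iff₀ hQ0]
        have := mul_le_mul_of_nonneg_left h4 (abs_nonneg (r : ℝ))
        linarith
      have h8 : 1 / (N : ℝ) ≤ |(r : ℝ) * (b - a) / Q| := by
        rw [h6, div_le_div_iff₀ hN0 hQ0]
        rw [div_lt_iff₀ (by positivity)] at h3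
        have h9 : R₀ * |b - a| ≤ |(r : ℝ)| * |b - a| := mul_le_mul_of_nonneg_right hr1 (abs_nonneg _)
        nlinarith
      intro n
      rcases eq_or_ne n 0 with rfl | hn
      · rw [Int.cast_zero, sub_zero]
        exact h8
      · have h9 : (1 : ℝ) ≤ |(n : ℝ)| := by exact_mod_cast Int.one_le_abs hn
        have h10 : |(n : ℝ)| - |(r : ℝ) * (b - a) / Q| ≤ |(r : ℝ) * (b - a) / Q - n| := by
          rw [abs_sub_comm]
          exact abs_sub_abs_le_abs_sub _ _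
        have h11 : 1 / (N : ℝ) ≤ 1 / 2 := one_div_le_one_div_of_le (by norm_num) hN1
        linarith
    have h3 := sieve_energy p N N (by omega) Z v hv (fun z => e (r * g z / Q)) (fun z => (norm_e _).le) A
      (fun a => r * a / Q) hsep'
    have h4 : ∑ a ∈ A, S r a ^ (2 * p) = ∑ a ∈ A, ‖∑ z, e (r * g z / Q) * e (r * a / Q * v z)‖ ^ (2 * p) := by
      refine sum_congr rfl fun a _ => ?_
      rw [hS]
      simp only
      congr 2
      refine sum_congr rfl fun z _ => ?_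
      rw [← e_add]
      congr 1
      ring
    rw [h4]
    refine h3.trans ?_
    have hEn : (0 : ℝ) ≤ En p v := Nat.cast_nonneg _
    have h5 : 6 * (((2 * p * N + 1 : ℕ) : ℝ) + N) ≤ 12 * (p + 1) * N := by
      push_cast
      nlinarith
    calc 6 * (((2 * p * N + 1 : ℕ) : ℝ) + N) * En p v ≤ 12 * (p + 1) * N * En p v :=
          mul_le_mul_of_nonneg_right h5 hEn
      _ = 12 * (p + 1) * (En p v * N) := by ring
      _ ≤ _ := mul_le_mul_of_nonneg_left hE (by positivity)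
  have h3 : (A.card : ℝ) * (Y / Λ) ^ (2 * p) ≤ 12 * (p + 1) * (X * Y ^ (2 * p)) := by
    calc (A.card : ℝ) * (Y / Λ) ^ (2 * p) = ∑ _a ∈ A, (Y / Λ) ^ (2 * p) := by rw [sum_const, nsmul_eq_mul]
      _ ≤ ∑ a ∈ A, ∑ r ∈ R, w r / V * S r a ^ (2 * p) := sum_le_sum h1
      _ = ∑ r ∈ R, w r / V * ∑ a ∈ A, S r a ^ (2 * p) := by
          rw [sum_comm]
          exact sum_congr rfl fun r _ => (mul_sum _ _ _).symm
      _ ≤ ∑ r ∈ R, w r / V * (12 * (p + 1) * (X * Y ^ (2 * p))) :=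
          sum_le_sum fun r hr => mul_le_mul_of_nonneg_left (h2 r hr) (div_nonneg (hw r) hV0.le)
      _ = _ := by rw [← sum_mul, ← sum_div, ← hV, div_self hV0.ne', one_mul]
  have hYp : 0 < Y := by
    rcases hY0.lt_or_eq with h | h
    · exact h
    · exfalso
      have h4 := hbad a₀ ha₀
      have h5 : Fintype.card Z = 0 := by
        have : (Fintype.card Z : ℝ) = 0 := by rw [← hY, ← h]
        exact_mod_cast this
      have h6 : IsEmpty Z := Fintype.card_eq_zero_iff.1 h5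
      rw [← h] at h4
      simp at h4
  have hYp' : 0 < Y ^ (2 * p) := by positivity
  have hΛp : 0 < Λ ^ (2 * p) := by positivity
  rw [div_pow, mul_div_assoc', div_le_iff₀ hΛp] at h3
  have h5 : (A.card : ℝ) * Y ^ (2 * p) ≤ (12 * (p + 1) * X * Λ ^ (2 * p)) * Y ^ (2 * p) := by
    calc (A.card : ℝ) * Y ^ (2 * p) ≤ 12 * (p + 1) * (X * Y ^ (2 * p)) * Λ ^ (2 * p) := h3
      _ = _ := by ring
  exact le_of_mul_le_mul_right h5 hYp'

/-- sums of a nonnegative function over short intervals around `α v + g + β` -/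
theorem fl_main (p N : ℕ) (hN : 2 ≤ N) (Q : ℕ) [NeZero Q] (R₀ Λ M X L₀ : ℝ) (hR₀ : 0 < R₀) (hΛ : 0 < Λ)
    (hX : 0 ≤ X) (Z : Type) [Fintype Z] (v : Z → ℤ) (hv : ∀ z, |v z| ≤ N) (g : Z → ℝ)
    (hE : (En p v : ℝ) * N ≤ X * (Fintype.card Z : ℝ) ^ (2 * p))
    (G : ZMod Q → ℝ) (hG : ∀ h, 0 ≤ G h)
    (hM : ∀ R : Finset ℤ, (∀ r ∈ R, R₀ ≤ |(r : ℝ)| ∧ 2 * |r| < Q) → ∑ r ∈ R, ‖cf Q G r‖ ≤ M)
    (hL : ∀ R : Finset ℤ, (∀ r ∈ R, |(r : ℝ)| < R₀ ∧ 2 * |r| < Q) → ∑ r ∈ R, ‖cf Q G r‖ ≤ L₀) :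
    ∃ E : Set ℝ, Cov E (12 * (p + 1) * X * Λ ^ (2 * p)) (Q / (R₀ * N)) ∧ ∀ α ∉ E, ∀ β : ℝ, ∀ H : ℝ, 1 ≤ H → 12 * H ≤ Q →
      ∀ W : Z → Finset ℤ, (∀ z, ∀ h ∈ W z, |(h : ℝ) - (α * v z + g z + β)| ≤ H) →
      ∑ z, ∑ h ∈ W z, G (h : ZMod Q) ≤ 48 * H * Fintype.card Z * (L₀ + M / Λ) := by
  classical
  have hQ : 1 ≤ Q := Nat.one_le_iff_ne_zero.2 (NeZero.ne Q)
  have hQ0 : (0 : ℝ) < Q := by exact_mod_cast hQ
  have hN1 : (2 : ℝ) ≤ N := by exact_mod_cast hN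
  obtain ⟨R, hRd⟩ : ∃ R : Finset ℤ, R = (Ioo (-(Q : ℤ)) Q).filter fun r : ℤ => R₀ ≤ |(r : ℝ)| ∧ 2 * |r| < Q := ⟨_, rfl⟩
  have hR : ∀ r ∈ R, R₀ ≤ |(r : ℝ)| ∧ 2 * |r| < Q := by
    intro r hr
    rw [hRd, mem_filter] at hr
    exact hr.2
  obtain ⟨E, hEd⟩ : ∃ E : Set ℝ, E = {a | M * Fintype.card Z < Λ * ∑ r ∈ R, ‖cf Q G r‖ *
    ‖∑ z, e (r * (a * v z + g z) / Q)‖} := ⟨_, rfl⟩
  refine ⟨E, ?_, ?_⟩
  · apply cov_of_sep
    · positivity
    · intro x A hA hsep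
      refine few_sep p N hN Q hQ R₀ Λ M X hR₀ hΛ hX Z v hv g hE R hR (fun r => ‖cf Q G r‖) (fun r => norm_nonneg _)
        (hM R hR) x A (fun a ha => (hA a ha).2) hsep (fun a ha => ?_)
      have := (hA a ha).1
      rw [hEd] at this
      exact this
  · intro α hα β H hH1 hHQ W hW
    rw [hEd, Set.mem_ofPred_eq, not_lt] at hα
    obtain ⟨K, hK⟩ : ∃ K : ℕ, K = ⌊(Q : ℝ) / (6 * H)⌋₊ := ⟨_, rfl⟩
    have hH0 : 0 < H := by linarith
    have hK2 : (2 : ℝ) ≤ Q / (6 * H) := by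
      rw [le_div_iff₀ (by positivity)]
      linarith
    have hK1 : 1 ≤ K := by
      rw [hK]
      exact Nat.le_floor (by push_cast; linarith)
    have hKu : (K : ℝ) * (6 * H) ≤ Q := by
      have h1 : (K : ℝ) ≤ Q / (6 * H) := by rw [hK]; exact Nat.floor_le (by positivity)
      rwa [le_div_iff₀ (by positivity)] at h1
    have hKl : (Q : ℝ) ≤ K * (12 * H) := by
      have h1 : (Q : ℝ) / (6 * H) < K + 1 := by rw [hK]; exact Nat.lt_floor_add_one _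
      have h2 : (Q : ℝ) / (6 * H) ≤ 2 * K := by
        have : (1 : ℝ) ≤ K := by exact_mod_cast hK1
        linarith
      rw [div_le_iff₀ (by positivity)] at h2
      linarith
    have hK0 : (0 : ℝ) < K := by exact_mod_cast hK1
    have hKQ : 2 * (K : ℤ) ≤ Q := by
      have h1 : (K : ℝ) * 6 ≤ Q := by nlinarith
      have h2 : ((K * 6 : ℕ) : ℝ) ≤ (Q : ℕ) := by push_cast; exact h1
      have h3 : K * 6 ≤ Q := by exact_mod_cast h2
      omega
    have h1 : (K : ℝ) / 4 * ∑ z, ∑ h ∈ W z, G (h : ZMod Q) ≤ Q * ∑ z, Psi Q K G (α * v z + g z + β) := by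
      rw [mul_sum, mul_sum]
      refine sum_le_sum fun z _ => ?_
      apply Psi_low Q K hQ hK1 G hG
      intro h hh
      have h2 := hW z h hh
      calc |(h : ℝ) - (α * v z + g z + β)| * (6 * K) ≤ H * (6 * K) := mul_le_mul_of_nonneg_right h2 (by positivity)
        _ = K * (6 * H) := by ring
        _ ≤ _ := hKu
    have h2 := Psi_sum Q K hK1 G Z (fun z => α * v z + g z + β)
    have h3 : ∀ r : ℤ, ‖∑ z, e (r * (α * v z + g z + β) / Q)‖ = ‖∑ z, e (r * (α * v z + g z) / Q)‖ := by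
      intro r
      have h4 : ∑ z, e (r * (α * v z + g z + β) / Q) = e (r * β / Q) * ∑ z, e (r * (α * v z + g z) / Q) := by
        rw [mul_sum]
        refine sum_congr rfl fun z _ => ?_
        rw [← e_add]
        congr 1
        ring
      rw [h4, norm_mul, norm_e, one_mul]
    simp only [h3] at h2
    obtain ⟨F, hF⟩ : ∃ F : ℤ → ℝ, F = fun r : ℤ => ‖cf Q G r‖ * ‖∑ z, e (r * (α * v z + g z) / Q)‖ := ⟨_, rfl⟩
    have hF0 : ∀ r, 0 ≤ F r := fun r => by rw [hF]; positivity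
    have hFl : ∀ r, F r ≤ ‖cf Q G r‖ * Fintype.card Z := by
      intro r
      rw [hF]
      apply mul_le_mul_of_nonneg_left _ (norm_nonneg _)
      refine (norm_sum_le _ _).trans ?_
      rw [sum_congr rfl fun z _ => norm_e _, sum_const, card_univ, nsmul_eq_mul, mul_one]
    have h4 : ∑ r ∈ Ioo (-(K : ℤ)) K, F r ≤ Fintype.card Z * (L₀ + M / Λ) := by
      rw [← sum_filter_add_sum_filter_not (Ioo (-(K : ℤ)) K) (fun r : ℤ => |(r : ℝ)| < R₀)]
      have h5 : ∑ r ∈ (Ioo (-(K : ℤ)) K).filter (fun r : ℤ => |(r : ℝ)| < R₀), F r ≤ L₀ * Fintype.card Z := by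
        refine (sum_le_sum fun r _ => hFl r).trans ?_
        rw [← sum_mul]
        apply mul_le_mul_of_nonneg_right _ (by positivity)
        apply hL
        intro r hr
        rw [mem_filter, mem_Ioo] at hr
        refine ⟨hr.2, ?_⟩
        have h6 : |r| < K := abs_lt.2 hr.1
        omega
      have h6 : ∑ r ∈ (Ioo (-(K : ℤ)) K).filter (fun r : ℤ => ¬ |(r : ℝ)| < R₀), F r ≤ ∑ r ∈ R, F r := by
        apply sum_le_sum_of_subset_of_nonneg
        · intro r hr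
          rw [mem_filter, mem_Ioo, not_lt] at hr
          rw [hRd, mem_filter, mem_Ioo]
          have h7 : |r| < K := abs_lt.2 hr.1
          refine ⟨⟨by omega, by omega⟩, hr.2, by omega⟩
        · intro r _ _
          exact hF0 r
      have h7 : ∑ r ∈ R, F r ≤ M / Λ * Fintype.card Z := by
        rw [hF, div_mul_eq_mul_div, le_div_iff₀ hΛ, mul_comm]
        exact hα
      calc _ ≤ L₀ * Fintype.card Z + M / Λ * Fintype.card Z := add_le_add h5 (h6.trans h7)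
        _ = _ := by ring
    rw [hF] at h4
    have h5 : (K : ℝ) / 4 * ∑ z, ∑ h ∈ W z, G (h : ZMod Q) ≤ Q * (Fintype.card Z * (L₀ + M / Λ)) :=
      h1.trans (mul_le_mul_of_nonneg_left (h2.trans h4) hQ0.le)
    have hT0 : 0 ≤ (Fintype.card Z : ℝ) * (L₀ + M / Λ) := (sum_nonneg fun r _ => hF0 r).trans (by rw [hF]; exact h4)
    have h6 : (K : ℝ) / 4 * ∑ z, ∑ h ∈ W z, G (h : ZMod Q) ≤ K / 4 * (48 * H * Fintype.card Z * (L₀ + M / Λ)) := by
      refine h5.trans ?_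
      calc Q * (Fintype.card Z * (L₀ + M / Λ)) ≤ K * (12 * H) * (Fintype.card Z * (L₀ + M / Λ)) :=
            mul_le_mul_of_nonneg_right hKl hT0
        _ = _ := by ring
    exact le_of_mul_le_mul_left h6 (by positivity)

end Pool.Agent.H96.FL
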