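import Pool.Agent.H96.FL.C
import Pool.Graph.R_seed8.H373R2.T7.SupE2

set_option autoImplicit false

/-! # All windows at once; correlations of sequences -/

namespace Pool.Agent.H96.FL

open Finset
open Pool.Agent.H469R2.NK (e norm_e e_add e_zero conj_e)
open Pool.Agent.TH935.GF (En)

/-- the integers in a window -/
noncomputable def win (y H : ℝ) : Finset ℤ := Icc ⌈y - H⌉ ⌊y + H⌋

lemma mem_win {y H : ℝ} {h : ℤ} : h ∈ win y H ↔ |(h : ℝ) - y| ≤ H := by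
  unfold win
  rw [mem_Icc, Int.ceil_le, Int.le_floor, abs_le]
  constructor
  · rintro ⟨h1, h2⟩; constructor <;> linarith
  · rintro ⟨h1, h2⟩; constructor <;> linarith

lemma win_mono {y H H' : ℝ} (h : H ≤ H') : win y H ⊆ win y H' := by
  intro x hx
  rw [mem_win] at hx ⊢
  exact hx.trans h

open Classical in
theorem fl_win (p N : ℕ) (hN : 2 ≤ N) (Q : ℕ) [NeZero Q] (R₀ Λ M X L₀ : ℝ) (hR₀ : 0 < R₀) (hΛ : 0 < Λ)
    (hX : 0 ≤ X) (Z : Type) [Fintype Z] (v : Z → ℤ) (hv : ∀ z, |v z| ≤ N) (g : Z → ℝ)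
    (hE : (En p v : ℝ) * N ≤ X * (Fintype.card Z : ℝ) ^ (2 * p))
    (G : ZMod Q → ℝ) (hG : ∀ h, 0 ≤ G h)
    (hM : ∀ R : Finset ℤ, (∀ r ∈ R, R₀ ≤ |(r : ℝ)| ∧ 2 * |r| < Q) → ∑ r ∈ R, ‖cf Q G r‖ ≤ M)
    (hL : ∀ R : Finset ℤ, (∀ r ∈ R, |(r : ℝ)| < R₀ ∧ 2 * |r| < Q) → ∑ r ∈ R, ‖cf Q G r‖ ≤ L₀) :
    ∃ E : Set ℝ, Cov E (12 * (p + 1) * X * Λ ^ (2 * p)) (Q / (R₀ * N)) ∧ ∀ α ∉ E, ∀ β τ : ℝ, 0 < τ →
      (((univ : Finset Z).filter fun z => ∃ H : ℝ, 1 ≤ H ∧ 24 * H ≤ Q ∧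
        τ * H < ∑ h ∈ win (α * v z + g z + β) H, G (h : ZMod Q)).card : ℝ) ≤
        (Nat.log 2 Q + 1) * (96 * Fintype.card Z * (L₀ + M / Λ) / τ) := by
  obtain ⟨E, hE1, hE2⟩ := fl_main p N hN Q R₀ Λ M X L₀ hR₀ hΛ hX Z v hv g hE G hG hM hL
  refine ⟨E, hE1, fun α hα β τ hτ => ?_⟩
  have hQ : 1 ≤ Q := Nat.one_le_iff_ne_zero.2 (NeZero.ne Q)
  obtain ⟨J, hJ⟩ : ∃ J : ℕ → Finset Z, J = fun j => univ.filter fun z => 24 * (2 : ℝ) ^ j ≤ Q ∧
    τ * (2 : ℝ) ^ j < ∑ h ∈ win (α * v z + g z + β) (2 * 2 ^ j), G (h : ZMod Q) := ⟨_, rfl⟩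
  have h1 : ((univ : Finset Z).filter fun z => ∃ H : ℝ, 1 ≤ H ∧ 24 * H ≤ Q ∧
        τ * H < ∑ h ∈ win (α * v z + g z + β) H, G (h : ZMod Q)) ⊆ (range (Nat.log 2 Q + 1)).biUnion J := by
    intro z hz
    rw [mem_filter] at hz
    obtain ⟨_, H, hH1, hH2, hH3⟩ := hz
    obtain ⟨j, hj⟩ : ∃ j, j = Nat.log 2 ⌊H⌋₊ := ⟨_, rfl⟩
    have hfl : ⌊H⌋₊ ≠ 0 := by
      have := Nat.le_floor (show ((1 : ℕ) : ℝ) ≤ H by push_cast; exact hH1)
      omega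
    have h2 : (2 : ℝ) ^ j ≤ H := by
      have h3 : 2 ^ j ≤ ⌊H⌋₊ := by rw [hj]; exact Nat.pow_log_le_self 2 hfl
      have h4 : ((2 ^ j : ℕ) : ℝ) ≤ (⌊H⌋₊ : ℝ) := by exact_mod_cast h3
      have h5 := Nat.floor_le (show 0 ≤ H by linarith)
      push_cast at h4
      linarith
    have h3 : H ≤ 2 * (2 : ℝ) ^ j := by
      have h4 : ⌊H⌋₊ < 2 ^ (j + 1) := by rw [hj]; exact Nat.lt_pow_succ_log_self (by norm_num) _
      have h5 : ⌊H⌋₊ + 1 ≤ 2 ^ (j + 1) := h4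
      have h6 : ((⌊H⌋₊ + 1 : ℕ) : ℝ) ≤ ((2 ^ (j + 1) : ℕ) : ℝ) := by exact_mod_cast h5
      have h7 := Nat.lt_floor_add_one H
      push_cast at h6
      rw [pow_succ] at h6
      linarith
    have hjQ : j < Nat.log 2 Q + 1 := by
      rw [hj]
      apply Nat.lt_succ_of_le
      apply Nat.log_mono_right
      have h4 : ((⌊H⌋₊ : ℕ) : ℝ) ≤ (Q : ℝ) := (Nat.floor_le (by linarith)).trans (by linarith)
      exact_mod_cast h4
    rw [mem_biUnion]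
    refine ⟨j, mem_range.2 hjQ, ?_⟩
    rw [hJ]
    simp only
    rw [mem_filter]
    refine ⟨mem_univ _, by linarith, ?_⟩
    calc τ * (2 : ℝ) ^ j ≤ τ * H := mul_le_mul_of_nonneg_left h2 hτ.le
      _ < _ := hH3
      _ ≤ _ := sum_le_sum_of_subset_of_nonneg (win_mono h3) fun _ _ _ => hG _
  have hT0 : 0 ≤ (Fintype.card Z : ℝ) * (L₀ + M / Λ) := by
    apply mul_nonneg (by positivity)
    have h2 := hM ∅ (by simp)
    have h3 := hL ∅ (by simp)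
    rw [sum_empty] at h2 h3
    positivity
  have h2 : ∀ j ∈ range (Nat.log 2 Q + 1), ((J j).card : ℝ) ≤ 96 * Fintype.card Z * (L₀ + M / Λ) / τ := by
    intro j _
    by_cases hjQ : 24 * (2 : ℝ) ^ j ≤ Q
    · have hj1 : (1 : ℝ) ≤ 2 ^ j := one_le_pow₀ (by norm_num)
      have h3 := hE2 α hα β (2 * 2 ^ j) (by linarith) (by linarith) (fun z => win (α * v z + g z + β) (2 * 2 ^ j))
        (fun z h hh => mem_win.1 hh)
      have h4 : ((J j).card : ℝ) * (τ * 2 ^ j) ≤ ∑ z, ∑ h ∈ win (α * v z + g z + β) (2 * 2 ^ j), G (h : ZMod Q) := by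
        rw [← nsmul_eq_mul, ← sum_const]
        refine le_trans ?_ (sum_le_sum_of_subset_of_nonneg (subset_univ (J j)) fun z _ _ => sum_nonneg fun _ _ => hG _)
        apply sum_le_sum
        intro z hz
        rw [hJ] at hz
        exact (mem_filter.1 hz).2.2.le
      rw [le_div_iff₀ hτ]
      have h5 := h4.trans h3
      have h6 : ((J j).card : ℝ) * τ * 2 ^ j ≤ (96 * Fintype.card Z * (L₀ + M / Λ)) * 2 ^ j := by
        calc ((J j).card : ℝ) * τ * 2 ^ j = (J j).card * (τ * 2 ^ j) := by ring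
          _ ≤ _ := h5
          _ = _ := by ring
      exact le_of_mul_le_mul_right h6 (by positivity)
    · have h3 : J j = ∅ := by
        rw [hJ]
        simp only
        rw [filter_eq_empty_iff]
        intro z _ h4
        exact hjQ h4.1
      rw [h3, card_empty, Nat.cast_zero]
      apply div_nonneg _ hτ.le
      nlinarith
  have h3 : (((univ : Finset Z).filter fun z => ∃ H : ℝ, 1 ≤ H ∧ 24 * H ≤ Q ∧
        τ * H < ∑ h ∈ win (α * v z + g z + β) H, G (h : ZMod Q)).card : ℝ) ≤ ∑ j ∈ range (Nat.log 2 Q + 1), ((J j).card : ℝ) := by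
    refine le_trans (Nat.cast_le.2 (card_le_card h1)) ?_
    exact_mod_cast card_biUnion_le
  refine h3.trans ((sum_le_sum h2).trans (le_of_eq ?_))
  rw [sum_const, card_range, nsmul_eq_mul]
  push_cast
  ring

/-- extension by zero -/
noncomputable def ext (f : ℕ → ℂ) (M : ℕ) (n : ℤ) : ℂ := if 1 ≤ n ∧ n ≤ M then f n.toNat else 0

/-- the correlation of two sequences -/
noncomputable def Del (a f : ℕ → ℂ) (M : ℕ) (h : ℤ) : ℂ := ∑ m ∈ Icc 1 M, a m * ext f M (m + h)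

/-- a sequence as a function on the residue classes -/
noncomputable def lift (Q M : ℕ) (f : ℕ → ℂ) (x : ZMod Q) : ℂ := if 1 ≤ x.val ∧ x.val ≤ M then f x.val else 0

section
variable {Q : ℕ} [NeZero Q]

lemma sum_lift (M : ℕ) (hMQ : M < Q) (f : ℕ → ℂ) (F : ZMod Q → ℂ → ℂ) (hF : ∀ x, F x 0 = 0) :
    ∑ x : ZMod Q, F x (lift Q M f x) = ∑ m ∈ Icc 1 M, F (m : ZMod Q) (f m) := by
  rw [← sum_range_zmod (fun x : ZMod Q => F x (lift Q M f x))]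
  have h1 : ∀ n ∈ range Q, F (n : ZMod Q) (lift Q M f (n : ZMod Q)) =
      if 1 ≤ n ∧ n ≤ M then F (n : ZMod Q) (f n) else 0 := by
    intro n hn
    unfold lift
    rw [ZMod.val_cast_of_lt (mem_range.1 hn)]
    split_ifs
    · rfl
    · exact hF _
  rw [sum_congr rfl h1, ← sum_filter]
  apply sum_congr
  · ext n
    rw [mem_filter, mem_range, mem_Icc]
    omega
  · intro _ _
    rfl

lemma lift_norm (M : ℕ) (hMQ : M < Q) (f : ℕ → ℂ) : ∑ x : ZMod Q, ‖lift Q M f x‖ ^ 2 = ∑ m ∈ Icc 1 M, ‖f m‖ ^ 2 := by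
  have h1 := sum_lift (Q := Q) M hMQ f (fun _ y => ((‖y‖ ^ 2 : ℝ) : ℂ)) (fun _ => by simp)
  exact_mod_cast h1

lemma lift_ft (M : ℕ) (hMQ : M < Q) (f : ℕ → ℂ) (S : ℝ) (hS : ∀ θ : ℝ, ‖∑ m ∈ Icc 1 M, f m * e (m * θ)‖ ≤ S)
    (ξ : ZMod Q) : ‖ft (lift Q M f) ξ‖ ≤ S := by
  have h1 := sum_lift (Q := Q) M hMQ f (fun x y => ZMod.stdAddChar (-(x * ξ)) * y) (fun _ => by simp)
  unfold ft
  rw [h1]
  refine le_trans (le_of_eq ?_) (hS (-(ξ.val / Q)))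
  congr 1
  refine sum_congr rfl fun m _ => ?_
  have h2 : (-((m : ZMod Q) * ξ) : ZMod Q) = ((-(m * ξ.val) : ℤ) : ZMod Q) := by
    push_cast
    rw [ZMod.natCast_zmod_val]
  rw [h2, psi_e, mul_comm]
  congr 2
  push_cast
  ring

lemma Del_le (M : ℕ) (hMQ : 2 * M < Q) (a f : ℕ → ℂ) (h : ℤ) :
    ‖Del a f M h‖ ^ 2 ≤ ‖cor (lift Q M a) (lift Q M f) (h : ZMod Q)‖ ^ 2 := by
  by_cases hh : |h| ≤ M
  · have h1 : Del a f M h = cor (lift Q M a) (lift Q M f) (h : ZMod Q) := by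
      unfold cor
      rw [sum_lift (Q := Q) M (by omega) a (fun x y => y * lift Q M f (x + h)) (fun _ => by simp)]
      unfold Del
      refine sum_congr rfl fun m hm => ?_
      rw [mem_Icc] at hm
      congr 1
      have hh' := abs_le.1 hh
      unfold ext lift
      have h2 : ((m : ZMod Q) + (h : ZMod Q)) = (((m : ℤ) + h : ℤ) : ZMod Q) := by push_cast; rfl
      by_cases h0 : 0 ≤ (m : ℤ) + h
      · have h3 : (((m : ℤ) + h : ℤ) : ZMod Q) = ((((m : ℤ) + h).toNat : ℕ) : ZMod Q) := by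
          have : ((((m : ℤ) + h).toNat : ℕ) : ℤ) = (m : ℤ) + h := Int.toNat_of_nonneg h0
          conv_lhs => rw [← this]
          push_cast
          rfl
        rw [h2, h3, ZMod.val_cast_of_lt (by omega)]
        have h4 : (1 ≤ (m : ℤ) + h ∧ (m : ℤ) + h ≤ M) ↔ (1 ≤ ((m : ℤ) + h).toNat ∧ ((m : ℤ) + h).toNat ≤ M) := by omega
        simp only [h4]
      · have h3 : (((m : ℤ) + h : ℤ) : ZMod Q) = ((((m : ℤ) + h + Q).toNat : ℕ) : ZMod Q) := by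
          have : ((((m : ℤ) + h + Q).toNat : ℕ) : ℤ) = (m : ℤ) + h + Q := Int.toNat_of_nonneg (by omega)
          have h4 : (((((m : ℤ) + h + Q).toNat : ℕ) : ℤ) : ZMod Q) = (((m : ℤ) + h + Q : ℤ) : ZMod Q) := by rw [this]
          rw [Int.cast_natCast] at h4
          rw [h4]
          push_cast
          simp
        rw [h2, h3, ZMod.val_cast_of_lt (by omega)]
        rw [if_neg (by omega), if_neg (by omega)]
    rw [h1]
  · have h1 : Del a f M h = 0 := by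
      unfold Del
      refine sum_eq_zero fun m hm => ?_
      rw [mem_Icc] at hm
      unfold ext
      rw [if_neg, mul_zero]
      intro h2
      apply hh
      rw [abs_le]
      constructor <;> omega
    rw [h1, norm_zero, zero_pow two_ne_zero]
    positivity

end

open Classical in
/-- correlations of sequences at `α v + g + β` -/
theorem fl_cor (p N : ℕ) (hN : 2 ≤ N) (Q : ℕ) [NeZero Q] (R₀ Λ X A₂ F₂ S : ℝ) (hR₀ : 1 ≤ R₀) (hΛ : 0 < Λ)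
    (hX : 0 ≤ X) (Z : Type) [Fintype Z] (v : Z → ℤ) (hv : ∀ z, |v z| ≤ N) (g : Z → ℝ)
    (hE : (En p v : ℝ) * N ≤ X * (Fintype.card Z : ℝ) ^ (2 * p))
    (M : ℕ) (hMQ : 2 * M < Q) (a f : ℕ → ℂ) (ha : ∑ m ∈ Icc 1 M, ‖a m‖ ^ 2 ≤ A₂) (hf : ∑ m ∈ Icc 1 M, ‖f m‖ ^ 2 ≤ F₂)
    (hS : ∀ θ : ℝ, ‖∑ m ∈ Icc 1 M, f m * e (m * θ)‖ ≤ S) :
    ∃ E : Set ℝ, Cov E (12 * (p + 1) * X * Λ ^ (2 * p)) (Q / (R₀ * N)) ∧ ∀ α ∉ E, ∀ β τ : ℝ, 0 < τ →
      (((univ : Finset Z).filter fun z => ∃ H : ℝ, 1 ≤ H ∧ 24 * H ≤ Q ∧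
        τ * H < ∑ h ∈ win (α * v z + g z + β) H, ‖Del a f M h‖ ^ 2).card : ℝ) ≤
        (Nat.log 2 Q + 1) * (96 * Fintype.card Z * (3 * R₀ * (S ^ 2 * A₂ / Q) + A₂ * F₂ / Λ) / τ) := by
  have hQ : 1 ≤ Q := Nat.one_le_iff_ne_zero.2 (NeZero.ne Q)
  have hQ0 : (0 : ℝ) < Q := by exact_mod_cast hQ
  have hMQ' : M < Q := by omega
  have hA0 : 0 ≤ A₂ := (sum_nonneg fun _ _ => by positivity).trans ha
  have hF0 : 0 ≤ F₂ := (sum_nonneg fun _ _ => by positivity).trans hf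
  obtain ⟨a', ha'⟩ : ∃ a', a' = lift Q M a := ⟨_, rfl⟩
  obtain ⟨f', hf'⟩ : ∃ f', f' = lift Q M f := ⟨_, rfl⟩
  obtain ⟨G, hGd⟩ : ∃ G : ZMod Q → ℝ, G = fun h => ‖cor a' f' h‖ ^ 2 := ⟨_, rfl⟩
  have hG : ∀ h, 0 ≤ G h := fun h => by rw [hGd]; positivity
  have hA : ∑ j, ‖a' j‖ ^ 2 ≤ A₂ := by rw [ha', lift_norm M hMQ']; exact ha
  have hF : ∑ j, ‖f' j‖ ^ 2 ≤ F₂ := by rw [hf', lift_norm M hMQ']; exact hf
  have hGsum : ∑ h, G h ≤ S ^ 2 * A₂ := by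
    rw [hGd]
    have h1 := l2_cor a' f' S (fun ξ => by rw [hf']; exact lift_ft M hMQ' f S hS ξ)
    refine h1.trans ?_
    exact mul_le_mul_of_nonneg_left hA (by positivity)
  obtain ⟨E, hE1, hE2⟩ := fl_win p N hN Q R₀ Λ (A₂ * F₂) X (3 * R₀ * (S ^ 2 * A₂ / Q)) (by linarith) hΛ hX Z v hv g hE G hG
    (fun R hR => by
      rw [hGd]
      refine (cf_l1 a' f' R (fun r hr => (hR r hr).2)).trans ?_
      exact mul_le_mul hA hF (sum_nonneg fun _ _ => by positivity) hA0)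
    (fun R hR => by
      have h1 : ∀ r ∈ R, ‖cf Q G r‖ ≤ S ^ 2 * A₂ / Q := by
        intro r _
        refine (cf_le G hG r).trans ?_
        rw [div_mul_eq_mul_div, one_mul]
        exact div_le_div_of_nonneg_right hGsum hQ0.le
      refine (sum_le_sum h1).trans ?_
      rw [sum_const, nsmul_eq_mul]
      apply mul_le_mul_of_nonneg_right _ (by positivity)
      have h2 : R ⊆ Icc (-(⌊R₀⌋ : ℤ)) ⌊R₀⌋ := by
        intro r hr
        have h3 := (abs_lt.1 (hR r hr).1)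
        rw [mem_Icc]
        constructor
        · have : -r ≤ ⌊R₀⌋ := Int.le_floor.2 (by push_cast; linarith)
          omega
        · exact Int.le_floor.2 h3.2.le
      have h3 := card_le_card h2
      rw [Int.card_Icc] at h3
      have h4 : 0 ≤ ⌊R₀⌋ := Int.floor_nonneg.2 (by linarith)
      have h5 : (R.card : ℤ) ≤ 2 * ⌊R₀⌋ + 1 := by omega
      have h6 : (R.card : ℝ) ≤ 2 * (⌊R₀⌋ : ℝ) + 1 := by exact_mod_cast h5
      have h7 := Int.floor_le R₀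
      linarith)
  refine ⟨E, hE1, fun α hα β τ hτ => ?_⟩
  refine le_trans ?_ (hE2 α hα β τ hτ)
  have h1 : ((univ : Finset Z).filter fun z => ∃ H : ℝ, 1 ≤ H ∧ 24 * H ≤ Q ∧
        τ * H < ∑ h ∈ win (α * v z + g z + β) H, ‖Del a f M h‖ ^ 2) ⊆ ((univ : Finset Z).filter fun z => ∃ H : ℝ, 1 ≤ H ∧ 24 * H ≤ Q ∧
        τ * H < ∑ h ∈ win (α * v z + g z + β) H, G (h : ZMod Q)) := by
    intro z hz
    rw [mem_filter] at hz ⊢
    obtain ⟨h1, H, h2, h3, h4⟩ := hz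
    refine ⟨h1, H, h2, h3, h4.trans_le ?_⟩
    refine sum_le_sum fun h _ => ?_
    rw [hGd, ha', hf']
    exact Del_le M hMQ a f h
  exact_mod_cast card_le_card h1

end Pool.Agent.H96.FL
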