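import Pool.Agent.H96.FL.D

set_option autoImplicit false

/-! # Correlations at `α v + g + β`: the estimates with logarithms -/

namespace Pool.Agent.H96.FL

open Finset
open Pool.Agent.H469R2.NK (e norm_e e_add e_zero conj_e)
open Pool.Agent.TH935.GF (En)
open Pool.Agent.H373R2.T7 (ev_L')

lemma log2_le (B : ℕ) : ∃ N₀ : ℕ, ∀ N : ℕ, N₀ ≤ N → (Nat.log 2 (24 * B * N + 1) : ℝ) + 1 ≤ Real.log N ^ 2 := by
  obtain ⟨n1, h1⟩ := ev_L' (2 * Real.log (24 * B + 1) + 4)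
  refine ⟨max n1 3, fun N hN => ?_⟩
  have a1 := h1 N (le_trans (le_max_left _ _) hN)
  have hN3 : 3 ≤ N := le_trans (le_max_right _ _) hN
  have hN0 : (0 : ℝ) < N := by exact_mod_cast (by omega : 0 < N)
  have hB0 : (0 : ℝ) ≤ B := Nat.cast_nonneg _
  have h2 : 0 ≤ Real.log (24 * B + 1) := Real.log_nonneg (by linarith)
  obtain ⟨k, hk⟩ : ∃ k, k = Nat.log 2 (24 * B * N + 1) := ⟨_, rfl⟩
  rw [← hk]
  have h3 : 2 ^ k ≤ 24 * B * N + 1 := by rw [hk]; exact Nat.pow_log_le_self 2 (by omega)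
  have h4 : ((2 : ℝ)) ^ k ≤ (24 * B + 1) * N := by
    have h5 : ((2 ^ k : ℕ) : ℝ) ≤ ((24 * B * N + 1 : ℕ) : ℝ) := by exact_mod_cast h3
    push_cast at h5
    have h6 : (1 : ℝ) ≤ N := by exact_mod_cast (by omega : 1 ≤ N)
    nlinarith
  have h5 : (k : ℝ) * Real.log 2 ≤ Real.log (24 * B + 1) + Real.log N := by
    rw [← Real.log_mul (by positivity) hN0.ne', ← Real.log_pow]
    exact Real.log_le_log (by positivity) h4
  have h6 : (1 : ℝ) / 2 ≤ Real.log 2 := by have := Real.log_two_gt_d9; linarith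
  have h7 : (k : ℝ) ≤ 2 * (Real.log (24 * B + 1) + Real.log N) := by
    have h8 : (k : ℝ) * (1 / 2) ≤ k * Real.log 2 := mul_le_mul_of_nonneg_left h6 (Nat.cast_nonneg _)
    linarith
  nlinarith

open Classical in
theorem fl_log (p c B U : ℕ) (hB : 1 ≤ B) : ∃ C : ℕ, ∀ D : ℕ, ∃ A N₀ : ℕ, ∀ N : ℕ, N₀ ≤ N →
    ∀ (Z : Type) [Fintype Z] (v : Z → ℤ), (∀ z, |v z| ≤ B * N) →
    (En p v : ℝ) * N ≤ Real.log N ^ c * (Fintype.card Z : ℝ) ^ (2 * p) → ∀ g : Z → ℝ,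
    ∀ (ι : Type) (I : Finset ι), (I.card : ℝ) ≤ Real.log N ^ c →
    ∀ a : ι → ℕ → ℂ, (∀ i ∈ I, ∀ m ∈ Icc 1 (B * N), ‖a i m‖ ≤ Real.log N ^ c) →
    ∀ f : ℕ → ℂ, (∀ m ∈ Icc 1 (B * N), ‖f m‖ ≤ Real.log N ^ c) →
    (∀ θ : ℝ, ‖∑ m ∈ Icc 1 (B * N), f m * e (m * θ)‖ ≤ N / Real.log N ^ A) →
    ∃ E : Set ℝ, Cov E (Real.log N ^ C) (1 / Real.log N ^ D) ∧ ∀ α ∉ E, ∀ β : ℝ,
      (((univ : Finset Z).filter fun z => ∃ i ∈ I, ∃ H : ℝ, 1 ≤ H ∧ H ≤ N ∧ H / Real.log N ^ U <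
        ((win (α * v z + g z + β) H).filter (fun h => N / Real.log N ^ U < ‖Del (a i) f (B * N) h‖)).card).card : ℝ) ≤
        Fintype.card Z / Real.log N ^ U := by
  obtain ⟨a1, ha1⟩ : ∃ a1, a1 = 5 * c + 4 * U + 3 := ⟨_, rfl⟩
  refine ⟨2 * c + 2 * p * a1 + 1, fun D => ?_⟩
  obtain ⟨A, hA⟩ : ∃ A, A = D + 4 + 3 * c + 4 * U := ⟨_, rfl⟩
  obtain ⟨n1, h1⟩ := ev_L' (12 * (p + 1) * B + 96 * (3 + B ^ 2) + 25)
  obtain ⟨n2, h2⟩ := log2_le B
  refine ⟨A, max (max n1 n2) 3, fun N hN Z _ v hv hE g ι I hI a ha f hf hS => ?_⟩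
  have hN1 := h1 N (le_trans (le_trans (le_max_left _ _) (le_max_left _ _)) hN)
  have hN2 := h2 N (le_trans (le_trans (le_max_right _ _) (le_max_left _ _)) hN)
  have hN3 : 3 ≤ N := le_trans (le_max_right _ _) hN
  have hN0 : (0 : ℝ) < N := by exact_mod_cast (by omega : 0 < N)
  have hB1 : (1 : ℝ) ≤ B := by exact_mod_cast hB
  have hp0 : (0 : ℝ) ≤ p := Nat.cast_nonneg _
  have hB2 : (1 : ℝ) ≤ (B : ℝ) ^ 2 := one_le_pow₀ hB1
  obtain ⟨L, hL⟩ : ∃ L, L = Real.log (N : ℝ) := ⟨_, rfl⟩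
  rw [← hL] at hN1 hN2 hE hI ha hf hS ⊢
  have hX0 : (0 : ℝ) ≤ 12 * (p + 1) * B := by positivity
  have hL1 : 1 ≤ L := by nlinarith
  have hL25 : 25 ≤ L := by nlinarith
  have hLa : 12 * (p + 1) * B ≤ L := by nlinarith
  have hLb : 96 * (3 + (B : ℝ) ^ 2) ≤ L := by nlinarith
  have hL0 : 0 < L := by linarith
  have hpow : ∀ k : ℕ, 0 < L ^ k := fun k => by positivity
  have hpow1 : ∀ k : ℕ, 1 ≤ L ^ k := fun k => one_le_pow₀ hL1
  obtain ⟨Q, hQ⟩ : ∃ Q, Q = 24 * B * N + 1 := ⟨_, rfl⟩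
  have : NeZero Q := ⟨by omega⟩
  have hQr : (Q : ℝ) = 24 * B * N + 1 := by rw [hQ]; push_cast; ring
  have hBN : (1 : ℝ) ≤ B * N := by
    have : (1 : ℝ) ≤ N := by exact_mod_cast (by omega : 1 ≤ N)
    nlinarith
  have hNBN : (N : ℝ) ≤ B * N := le_mul_of_one_le_left hN0.le hB1
  have hQ0 : (0 : ℝ) < Q := by rw [hQr]; linarith
  have hQBN : (B : ℝ) * N ≤ Q := by rw [hQr]; linarith
  have hQBN' : (Q : ℝ) ≤ 25 * (B * N) := by rw [hQr]; linarith
  have hMQ : 2 * (B * N) < Q := by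
    rw [hQ, mul_assoc]
    omega
  have hYn : (0 : ℝ) ≤ Fintype.card Z := Nat.cast_nonneg _
  -- the norms
  have hA2 : ∀ i ∈ I, ∑ m ∈ Icc 1 (B * N), ‖a i m‖ ^ 2 ≤ B * N * L ^ (2 * c) := by
    intro i hi
    refine (sum_le_sum fun m hm => pow_le_pow_left₀ (norm_nonneg _) (ha i hi m hm) 2).trans ?_
    rw [sum_const, Nat.card_Icc, nsmul_eq_mul, ← pow_mul, Nat.add_sub_cancel, mul_comm c 2]
    push_cast
    exact le_refl _
  have hF2 : ∑ m ∈ Icc 1 (B * N), ‖f m‖ ^ 2 ≤ B * N * L ^ (2 * c) := by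
    refine (sum_le_sum fun m hm => pow_le_pow_left₀ (norm_nonneg _) (hf m hm) 2).trans ?_
    rw [sum_const, Nat.card_Icc, nsmul_eq_mul, ← pow_mul, Nat.add_sub_cancel, mul_comm c 2]
    push_cast
    exact le_refl _
  have hE' : (En p v : ℝ) * ((B * N : ℕ) : ℝ) ≤ (B * L ^ c) * (Fintype.card Z : ℝ) ^ (2 * p) := by
    push_cast
    calc (En p v : ℝ) * (B * N) = B * (En p v * N) := by ring
      _ ≤ B * (L ^ c * (Fintype.card Z : ℝ) ^ (2 * p)) := mul_le_mul_of_nonneg_left hE (by linarith)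
      _ = _ := by ring
  have hv' : ∀ z, |v z| ≤ ((B * N : ℕ) : ℤ) := by
    intro z
    push_cast
    exact hv z
  have hmain : ∀ i ∈ I, ∃ E : Set ℝ, Cov E (12 * (p + 1) * (B * L ^ c) * (L ^ a1) ^ (2 * p)) (Q / (L ^ (D + 1) * ((B * N : ℕ) : ℝ))) ∧
      ∀ α ∉ E, ∀ β τ : ℝ, 0 < τ →
      (((univ : Finset Z).filter fun z => ∃ H : ℝ, 1 ≤ H ∧ 24 * H ≤ Q ∧
        τ * H < ∑ h ∈ win (α * v z + g z + β) H, ‖Del (a i) f (B * N) h‖ ^ 2).card : ℝ) ≤
        (Nat.log 2 Q + 1) * (96 * Fintype.card Z * (3 * L ^ (D + 1) * ((N / L ^ A) ^ 2 * (B * N * L ^ (2 * c)) / Q) +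
          (B * N * L ^ (2 * c)) * (B * N * L ^ (2 * c)) / L ^ a1) / τ) := by
    intro i hi
    exact fl_cor p (B * N) (by nlinarith) Q (L ^ (D + 1)) (L ^ a1) (B * L ^ c) (B * N * L ^ (2 * c)) (B * N * L ^ (2 * c))
      (N / L ^ A) (hpow1 _) (hpow _) (by positivity) Z v hv' g hE' (B * N) hMQ (a i) f (hA2 i hi) hF2 hS
  choose! E hE1 hE2 using hmain
  refine ⟨⋃ i ∈ I, E i, ?_, ?_⟩
  · refine (Cov.iUnion I E _ _ hE1).mono (le_refl _) ?_ ?_
    · calc (I.card : ℝ) * (12 * (p + 1) * (B * L ^ c) * (L ^ a1) ^ (2 * p)) ≤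
          L ^ c * (12 * (p + 1) * (B * L ^ c) * (L ^ a1) ^ (2 * p)) := mul_le_mul_of_nonneg_right hI (by positivity)
        _ = (12 * (p + 1) * B) * L ^ (2 * c + 2 * p * a1) := by
            rw [← pow_mul, pow_add, two_mul c, pow_add, mul_comm a1 (2 * p)]
            ring
        _ ≤ L * L ^ (2 * c + 2 * p * a1) := mul_le_mul_of_nonneg_right hLa (by positivity)
        _ = _ := by rw [pow_succ]; ring
    · push_cast
      rw [div_le_div_iff₀ (by positivity) (hpow D), one_mul, pow_succ]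
      have h3 : 25 * (L ^ D * (B * N)) ≤ L * (L ^ D * (B * N)) := mul_le_mul_of_nonneg_right hL25 (by positivity)
      have h4 : (Q : ℝ) * L ^ D ≤ 25 * (B * N) * L ^ D := mul_le_mul_of_nonneg_right hQBN' (by positivity)
      linarith
  · intro α hα β
    have hα' : ∀ i ∈ I, α ∉ E i := by
      intro i hi hmem
      exact hα (Set.mem_iUnion₂.2 ⟨i, hi, hmem⟩)
    obtain ⟨τ, hτ⟩ : ∃ τ : ℝ, τ = (N : ℝ) ^ 2 / L ^ (3 * U) := ⟨_, rfl⟩
    have hτ0 : 0 < τ := by rw [hτ]; positivity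
    -- the estimate for one `i`
    have hone : ∀ i ∈ I, (((univ : Finset Z).filter fun z => ∃ H : ℝ, 1 ≤ H ∧ H ≤ N ∧ H / L ^ U <
        ((win (α * v z + g z + β) H).filter (fun h => N / L ^ U < ‖Del (a i) f (B * N) h‖)).card).card : ℝ) ≤
        Fintype.card Z / L ^ (U + c) := by
      intro i hi
      have h3 := hE2 i hi α (hα' i hi) β τ hτ0
      have h4 : ((univ : Finset Z).filter fun z => ∃ H : ℝ, 1 ≤ H ∧ H ≤ N ∧ H / L ^ U <
          ((win (α * v z + g z + β) H).filter (fun h => N / L ^ U < ‖Del (a i) f (B * N) h‖)).card) ⊆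
          (univ : Finset Z).filter fun z => ∃ H : ℝ, 1 ≤ H ∧ 24 * H ≤ Q ∧
            τ * H < ∑ h ∈ win (α * v z + g z + β) H, ‖Del (a i) f (B * N) h‖ ^ 2 := by
        intro z hz
        rw [mem_filter] at hz ⊢
        obtain ⟨h5, H, hH1, hH2, hH3⟩ := hz
        refine ⟨h5, H, hH1, ?_, ?_⟩
        · rw [hQr]
          linarith
        · have h6 : ((((win (α * v z + g z + β) H).filter (fun h => N / L ^ U < ‖Del (a i) f (B * N) h‖)).card : ℕ) : ℝ) *
              ((N / L ^ U) ^ 2) ≤ ∑ h ∈ win (α * v z + g z + β) H, ‖Del (a i) f (B * N) h‖ ^ 2 := by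
            rw [← nsmul_eq_mul, ← sum_const]
            refine le_trans ?_ (sum_le_sum_of_subset_of_nonneg
              (filter_subset (fun h => N / L ^ U < ‖Del (a i) f (B * N) h‖) (win (α * v z + g z + β) H))
              fun _ _ _ => by positivity)
            apply sum_le_sum
            intro h hh
            exact pow_le_pow_left₀ (by positivity) (mem_filter.1 hh).2.le 2
          refine lt_of_lt_of_le ?_ h6
          have h7 : τ * H = H / L ^ U * ((N / L ^ U) ^ 2) := by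
            rw [hτ, div_pow, ← pow_mul, show 3 * U = U + U * 2 by ring, pow_add]
            field_simp
          rw [h7]
          exact mul_lt_mul_of_pos_right hH3 (by positivity)
      refine (Nat.cast_le.2 (card_le_card h4)).trans (h3.trans ?_)
      -- the arithmetic
      have e1 : 3 * L ^ (D + 1) * ((N / L ^ A) ^ 2 * (B * N * L ^ (2 * c)) / Q) / τ ≤ 3 / (L ^ (U + c) * L ^ 3) := by
        have h5 : (B : ℝ) * N / Q ≤ 1 := (div_le_one hQ0).2 hQBN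
        have h6 : 3 * L ^ (D + 1) * ((N / L ^ A) ^ 2 * (B * N * L ^ (2 * c)) / Q) / τ =
            3 * (L ^ (D + 1) * L ^ (2 * c) * L ^ (3 * U) / L ^ (2 * A)) * (B * N / Q) := by
          rw [hτ, div_pow, ← pow_mul, mul_comm A 2]
          field_simp
        rw [h6]
        have h7 : L ^ (D + 1) * L ^ (2 * c) * L ^ (3 * U) / L ^ (2 * A) ≤ 1 / (L ^ (U + c) * L ^ 3) := by
          rw [div_le_div_iff₀ (hpow _) (by positivity), one_mul, ← pow_add, ← pow_add, ← pow_add, ← pow_add]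
          apply pow_le_pow_right₀ hL1
          omega
        have h8 : 0 ≤ L ^ (D + 1) * L ^ (2 * c) * L ^ (3 * U) / L ^ (2 * A) := by positivity
        calc 3 * (L ^ (D + 1) * L ^ (2 * c) * L ^ (3 * U) / L ^ (2 * A)) * (B * N / Q) ≤
            3 * (L ^ (D + 1) * L ^ (2 * c) * L ^ (3 * U) / L ^ (2 * A)) * 1 := mul_le_mul_of_nonneg_left h5 (by positivity)
          _ ≤ 3 * (1 / (L ^ (U + c) * L ^ 3)) := by linarith
          _ = _ := by ring
      have e2 : (B * N * L ^ (2 * c)) * (B * N * L ^ (2 * c)) / L ^ a1 / τ ≤ B ^ 2 / (L ^ (U + c) * L ^ 3) := by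
        have h6 : (B * N * L ^ (2 * c)) * (B * N * L ^ (2 * c)) / L ^ a1 / τ =
            B ^ 2 * (L ^ (2 * c) * L ^ (2 * c) * L ^ (3 * U) / L ^ a1) := by
          rw [hτ]
          field_simp
        rw [h6]
        have h7 : L ^ (2 * c) * L ^ (2 * c) * L ^ (3 * U) / L ^ a1 ≤ 1 / (L ^ (U + c) * L ^ 3) := by
          rw [div_le_div_iff₀ (hpow _) (by positivity), one_mul, ← pow_add, ← pow_add, ← pow_add, ← pow_add]
          apply pow_le_pow_right₀ hL1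
          omega
        calc (B : ℝ) ^ 2 * (L ^ (2 * c) * L ^ (2 * c) * L ^ (3 * U) / L ^ a1) ≤ B ^ 2 * (1 / (L ^ (U + c) * L ^ 3)) :=
              mul_le_mul_of_nonneg_left h7 (by positivity)
          _ = _ := by ring
      obtain ⟨V1, hV1⟩ : ∃ V1, V1 = 3 * L ^ (D + 1) * ((N / L ^ A) ^ 2 * (B * N * L ^ (2 * c)) / Q) := ⟨_, rfl⟩
      obtain ⟨V2, hV2⟩ : ∃ V2, V2 = (B * N * L ^ (2 * c)) * (B * N * L ^ (2 * c)) / L ^ a1 := ⟨_, rfl⟩
      rw [← hV1] at e1 ⊢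
      rw [← hV2] at e2 ⊢
      have e3 : 96 * (Fintype.card Z : ℝ) * (V1 + V2) / τ ≤ 96 * (Fintype.card Z : ℝ) * ((3 + B ^ 2) / (L ^ (U + c) * L ^ 3)) := by
        rw [mul_div_assoc]
        apply mul_le_mul_of_nonneg_left _ (by positivity)
        rw [add_div, add_div]
        exact add_le_add e1 e2
      have e4 : 0 ≤ 96 * (Fintype.card Z : ℝ) * ((3 + B ^ 2) / (L ^ (U + c) * L ^ 3)) := by positivity
      rw [← hQ] at hN2
      calc ((Nat.log 2 Q : ℝ) + 1) * (96 * (Fintype.card Z : ℝ) * (V1 + V2) / τ) ≤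
          ((Nat.log 2 Q : ℝ) + 1) * (96 * (Fintype.card Z : ℝ) * ((3 + B ^ 2) / (L ^ (U + c) * L ^ 3))) :=
            mul_le_mul_of_nonneg_left e3 (by positivity)
        _ ≤ L ^ 2 * (96 * (Fintype.card Z : ℝ) * ((3 + B ^ 2) / (L ^ (U + c) * L ^ 3))) :=
            mul_le_mul_of_nonneg_right hN2 e4
        _ = (96 * (3 + (B : ℝ) ^ 2)) * (Fintype.card Z / (L ^ (U + c) * L)) := by
            rw [show L ^ 3 = L ^ 2 * L by ring]
            field_simp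
        _ ≤ L * (Fintype.card Z / (L ^ (U + c) * L)) := mul_le_mul_of_nonneg_right hLb (by positivity)
        _ = _ := by field_simp
    have hsub : ((univ : Finset Z).filter fun z => ∃ i ∈ I, ∃ H : ℝ, 1 ≤ H ∧ H ≤ N ∧ H / L ^ U <
        ((win (α * v z + g z + β) H).filter (fun h => N / L ^ U < ‖Del (a i) f (B * N) h‖)).card) ⊆
        I.biUnion fun i => (univ : Finset Z).filter fun z => ∃ H : ℝ, 1 ≤ H ∧ H ≤ N ∧ H / L ^ U <
        ((win (α * v z + g z + β) H).filter (fun h => N / L ^ U < ‖Del (a i) f (B * N) h‖)).card := by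
      intro z hz
      rw [mem_filter] at hz
      obtain ⟨_, i, hi, h3⟩ := hz
      rw [mem_biUnion]
      exact ⟨i, hi, mem_filter.2 ⟨mem_univ _, h3⟩⟩
    refine (Nat.cast_le.2 (card_le_card hsub)).trans ?_
    refine (Nat.cast_le.2 card_biUnion_le).trans ?_
    push_cast
    refine (sum_le_sum hone).trans ?_
    rw [sum_const, nsmul_eq_mul, pow_add]
    calc (I.card : ℝ) * (Fintype.card Z / (L ^ U * L ^ c)) ≤ L ^ c * (Fintype.card Z / (L ^ U * L ^ c)) :=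
          mul_le_mul_of_nonneg_right hI (by positivity)
      _ = _ := by field_simp

end Pool.Agent.H96.FL
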