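import Pool.Agent.H96.FL.E
import Pool.Graph.R_pool_sql_team_seeded_35f281b4.K7.H49.LT.Cnt

set_option autoImplicit false

/-! # The primes and their sieve model -/

namespace Pool.Agent.H96.FL

open Finset
open Pool.Agent.H469R2.NK (e norm_e e_add e_zero conj_e)
open Pool.Agent.H373R2.T7 (ev_L' ev_log' pz Vz lamz mem_pz Vz_pos Vz_inv_small lamz_nonneg)

open Classical in
/-- the sieve model of the indicator function of the primes -/
noncomputable def mdl (z x : ℕ) : ℝ :=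
  if 1 ≤ x ∧ ∀ p : ℕ, p.Prime → p ≤ z → ¬ p ∣ x then
    1 / (Real.log (max x 2 : ℕ) * ∏ p ∈ (Icc 1 z).filter Nat.Prime, (1 - 1 / (p : ℝ))) else 0

/-- the primes minus the model -/
noncomputable def fP (z n : ℕ) : ℂ := (((if n.Prime then 1 else 0) - mdl z n : ℝ) : ℂ)

lemma abel (w : ℕ → ℝ) (hw0 : ∀ n, 0 ≤ w n) (hw : ∀ n, 1 ≤ n → w (n + 1) ≤ w n) (u : ℕ → ℂ) (S : ℝ) (M : ℕ)
    (hS : ∀ t ≤ M, ‖∑ n ∈ Icc 1 t, u n‖ ≤ S) : ‖∑ n ∈ Icc 1 M, (w n : ℂ) * u n‖ ≤ w 1 * S := by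
  have hS0 : 0 ≤ S := (norm_nonneg _).trans (hS 0 (Nat.zero_le _))
  have key : ∀ t : ℕ, 1 ≤ t → t ≤ M →
      ‖∑ n ∈ Icc 1 t, (w n : ℂ) * u n - w t * ∑ n ∈ Icc 1 t, u n‖ ≤ (w 1 - w t) * S := by
    intro t ht
    induction t, ht using Nat.le_induction with
    | base =>
      intro _
      simp
    | succ t ht ih =>
      intro htM
      have h1 := ih (by omega)
      rw [sum_Icc_succ_top (by omega), sum_Icc_succ_top (by omega)]
      have h2 : ∑ n ∈ Icc 1 t, (w n : ℂ) * u n + w (t + 1) * u (t + 1) - w (t + 1) * (∑ n ∈ Icc 1 t, u n + u (t + 1)) =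
          (∑ n ∈ Icc 1 t, (w n : ℂ) * u n - w t * ∑ n ∈ Icc 1 t, u n) + ((w t - w (t + 1) : ℝ) : ℂ) * ∑ n ∈ Icc 1 t, u n := by
        push_cast
        ring
      rw [h2]
      refine (norm_add_le _ _).trans ?_
      rw [norm_mul, Complex.norm_real, Real.norm_eq_abs, abs_of_nonneg (sub_nonneg.2 (hw t ht))]
      have h3 := mul_le_mul_of_nonneg_left (hS t (by omega)) (sub_nonneg.2 (hw t ht))
      linarith
  rcases Nat.eq_zero_or_pos M with h | h
  · subst h
    simp only [show Icc 1 0 = (∅ : Finset ℕ) by rfl, sum_empty, norm_zero]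
    exact mul_nonneg (hw0 1) hS0
  · have h1 := key M h (le_refl _)
    have h2 : ∑ n ∈ Icc 1 M, (w n : ℂ) * u n = (∑ n ∈ Icc 1 M, (w n : ℂ) * u n - w M * ∑ n ∈ Icc 1 M, u n) +
        w M * ∑ n ∈ Icc 1 M, u n := by ring
    rw [h2]
    refine (norm_add_le _ _).trans ?_
    rw [norm_mul, Complex.norm_real, Real.norm_eq_abs, abs_of_nonneg (hw0 M)]
    have h3 := mul_le_mul_of_nonneg_left (hS M (le_refl _)) (hw0 M)
    linarith

lemma half_log2 : (1 : ℝ) / 2 ≤ Real.log 2 := by have := Real.log_two_gt_d9; linarith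

lemma mdl_eq (z n : ℕ) (hn : 1 ≤ n) : mdl z n = 1 / Real.log (max n 2 : ℕ) * lamz z n := by
  unfold mdl lamz
  have h1 : (∀ p ∈ pz z, ¬ p ∣ n) ↔ (1 ≤ n ∧ ∀ p : ℕ, p.Prime → p ≤ z → ¬ p ∣ n) := by
    constructor
    · intro h
      exact ⟨hn, fun p hp hpz => h p (mem_pz.2 ⟨hpz, hp⟩)⟩
    · intro h p hp
      rw [mem_pz] at hp
      exact h.2 p hp.2 hp.1
  by_cases h : (1 ≤ n ∧ ∀ p : ℕ, p.Prime → p ≤ z → ¬ p ∣ n)
  · rw [if_pos h, if_pos (h1.2 h)]
    have : ∏ p ∈ (Icc 1 z).filter Nat.Prime, (1 - 1 / (p : ℝ)) = Vz z := rfl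
    rw [this]
    rw [one_div, one_div, mul_inv]
  · rw [if_neg h, if_neg (fun h2 => h (h1.1 h2)), mul_zero]

lemma mdl_zero (z : ℕ) : mdl z 0 = 0 := by
  unfold mdl
  rw [if_neg]
  omega

lemma log_max (n : ℕ) : (1 : ℝ) / 2 ≤ Real.log (max n 2 : ℕ) := by
  refine half_log2.trans (Real.log_le_log (by norm_num) ?_)
  exact_mod_cast le_max_right n 2

lemma inv_log_max (n : ℕ) : 1 / Real.log (max n 2 : ℕ) ≤ 2 := by
  have h1 := log_max n
  rw [div_le_iff₀ (by linarith)]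
  linarith

lemma mdl_nonneg (z n : ℕ) : 0 ≤ mdl z n := by
  rcases Nat.eq_zero_or_pos n with rfl | h
  · rw [mdl_zero]
  · rw [mdl_eq z n h]
    have := log_max n
    exact mul_nonneg (div_nonneg (by norm_num) (by linarith)) (lamz_nonneg _ _)

lemma lamz_le' (z n : ℕ) : lamz z n ≤ (Vz z)⁻¹ := by
  unfold lamz
  split_ifs
  · exact le_refl _
  · exact (inv_pos.2 (Vz_pos z)).le

lemma mdl_le (z n : ℕ) : mdl z n ≤ 2 * (Vz z)⁻¹ := by
  rcases Nat.eq_zero_or_pos n with rfl | h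
  · rw [mdl_zero]
    have := inv_pos.2 (Vz_pos z)
    linarith
  · rw [mdl_eq z n h]
    exact mul_le_mul (inv_log_max n) (lamz_le' z n) (lamz_nonneg _ _) (by norm_num)

lemma ee_e (x : ℝ) : Pool.Agent.H807R2.Dav.ee x = e x := Pool.Agent.H807R2.Dav.ee_eq x

set_option maxHeartbeats 1000000 in
theorem sup_primes (U : ℕ) : ∃ B₀ : ℕ, ∀ E : ℕ, ∃ N₀ : ℕ, ∀ M : ℕ, N₀ ≤ M → ∀ z : ℕ, Real.log M ^ B₀ ≤ z →
    (z : ℝ) ≤ Real.log M ^ E → (∀ θ : ℝ, ‖∑ n ∈ Icc 1 M, fP z n * e (n * θ)‖ ≤ M / Real.log M ^ U) ∧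
      (∀ n, mdl z n ≤ 2 * Real.log M) := by
  obtain ⟨B₀, hsup⟩ := Pool.Agent.H373R2.T7.sup_diff (U + 1)
  refine ⟨B₀, fun E => ?_⟩
  obtain ⟨N1, h1⟩ := hsup (E + 1)
  obtain ⟨n2, h2⟩ := ev_L' (2 * 2 ^ E + 4 * 2 ^ (U + 2) + 4)
  obtain ⟨n3, h3⟩ := ev_log' (U + 2) 16
  obtain ⟨n4, h4⟩ := Vz_inv_small E
  refine ⟨max (max (N1 * N1) n2) (max (max n3 n4) 3), fun M hM z hz1 hz2 => ?_⟩
  have b1 : N1 * N1 ≤ M := le_trans (le_trans (le_max_left _ _) (le_max_left _ _)) hM
  have a2 := h2 M (le_trans (le_trans (le_max_right _ _) (le_max_left _ _)) hM)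
  have a3 := h3 M (le_trans (le_trans (le_trans (le_max_left _ _) (le_max_left _ _)) (le_max_right _ _)) hM)
  have b4 : n4 ≤ M := le_trans (le_trans (le_trans (le_max_right _ _) (le_max_left _ _)) (le_max_right _ _)) hM
  have b3 : 3 ≤ M := le_trans (le_trans (le_max_right _ _) (le_max_right _ _)) hM
  have hM0 : (0 : ℝ) < M := by exact_mod_cast (by omega : 0 < M)
  have hM1 : (1 : ℝ) ≤ M := by exact_mod_cast (by omega : 1 ≤ M)
  obtain ⟨L, hL⟩ : ∃ L, L = Real.log (M : ℝ) := ⟨_, rfl⟩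
  have hP2 : (0 : ℝ) < 2 ^ E := by positivity
  have hP3 : (0 : ℝ) < 2 ^ (U + 2) := by positivity
  have hL4 : 4 ≤ L := by rw [hL]; linarith
  have hL1 : 1 ≤ L := by linarith
  have hL0 : 0 < L := by linarith
  have hLE : 2 * 2 ^ E ≤ L := by rw [hL]; linarith
  have hLU : 4 * 2 ^ (U + 2) ≤ L := by rw [hL]; linarith
  have hz0 : 1 ≤ z := by
    have : (1 : ℝ) ≤ z := (one_le_pow₀ (by rw [← hL]; exact hL1)).trans hz1
    exact_mod_cast this
  have hVz : (Vz z)⁻¹ ≤ L := by rw [hL]; exact h4 M b4 z hz0 hz2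
  refine ⟨fun θ => ?_, fun n => (mdl_le z n).trans (by rw [← hL]; linarith)⟩
  rw [← hL] at hz1 hz2 a3 ⊢
  have hsq : √(M : ℝ) * √(M : ℝ) = M := Real.mul_self_sqrt hM0.le
  have hsq0 : 0 ≤ √(M : ℝ) := Real.sqrt_nonneg _
  -- partial sums
  obtain ⟨u, hu⟩ : ∃ u : ℕ → ℂ, u = fun n => ((ArithmeticFunction.vonMangoldt n - lamz z n : ℝ) : ℂ) * e (n * θ) := ⟨_, rfl⟩
  have hS : ∀ t ≤ M, ‖∑ n ∈ Icc 1 t, u n‖ ≤ 2 ^ (U + 1) * M / L ^ (U + 1) := by
    intro t ht
    have htM : (t : ℝ) ≤ M := by exact_mod_cast ht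
    by_cases hcase : M ≤ t * t
    · have htN : N1 ≤ t := by
        by_contra hcon
        push Not at hcon
        have : t * t < N1 * N1 := Nat.mul_self_lt_mul_self hcon
        omega
      have ht1 : 1 ≤ t := by
        by_contra hcon
        have : t = 0 := by omega
        rw [this] at hcase
        omega
      have ht0 : (0 : ℝ) < t := by exact_mod_cast ht1
      have hlt : L / 2 ≤ Real.log t := by
        have h5 : Real.log M ≤ Real.log ((t : ℝ) * t) := Real.log_le_log hM0 (by exact_mod_cast hcase)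
        rw [Real.log_mul ht0.ne' ht0.ne', ← hL] at h5
        linarith
      have hlt' : Real.log t ≤ L := by rw [hL]; exact Real.log_le_log ht0 htM
      have hlt0 : 0 < Real.log t := by linarith
      have h5 := h1 t htN z ((pow_le_pow_left₀ hlt0.le hlt' B₀).trans hz1) (by
        refine hz2.trans ?_
        have h6 : L ^ E ≤ (2 * Real.log t) ^ E := pow_le_pow_left₀ hL0.le (by linarith) E
        refine h6.trans ?_
        rw [mul_pow, pow_succ, mul_comm]
        apply mul_le_mul_of_nonneg_left _ (by positivity)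
        linarith) θ
      have h6 : ∑ n ∈ Icc 1 t, u n = ∑ n ∈ Icc 1 t, ((ArithmeticFunction.vonMangoldt n - lamz z n : ℝ) : ℂ) *
          Pool.Agent.H807R2.Dav.ee ((n : ℝ) * θ) := by
        refine sum_congr rfl fun n _ => ?_
        rw [ee_e, hu]
      rw [h6]
      refine h5.trans ?_
      rw [div_le_div_iff₀ (by positivity) (by positivity)]
      have h7 : L ^ (U + 1) ≤ 2 ^ (U + 1) * Real.log t ^ (U + 1) := by
        rw [← mul_pow]
        exact pow_le_pow_left₀ hL0.le (by linarith) _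
      calc (t : ℝ) * L ^ (U + 1) ≤ M * (2 ^ (U + 1) * Real.log t ^ (U + 1)) :=
            mul_le_mul htM h7 (by positivity) hM0.le
        _ = _ := by ring
    · push Not at hcase
      have h5 : ∀ n ∈ Icc 1 t, ‖u n‖ ≤ 2 * L := by
        intro n hn
        rw [mem_Icc] at hn
        rw [hu]
        simp only
        rw [norm_mul, norm_e, mul_one, Complex.norm_real, Real.norm_eq_abs]
        have h6 : ArithmeticFunction.vonMangoldt n ≤ L := by
          refine ArithmeticFunction.vonMangoldt_le_log.trans ?_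
          rw [hL]
          apply Real.log_le_log (by exact_mod_cast (by omega : 0 < n))
          exact_mod_cast hn.2.trans ht
        have h7 : 0 ≤ ArithmeticFunction.vonMangoldt n := ArithmeticFunction.vonMangoldt_nonneg
        have h8 := lamz_nonneg z n
        have h9 := (lamz_le' z n).trans hVz
        rw [abs_le]
        constructor <;> linarith
      refine (norm_sum_le _ _).trans ((sum_le_sum h5).trans ?_)
      rw [sum_const, Nat.card_Icc, nsmul_eq_mul, Nat.add_sub_cancel]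
      have h6 : (t : ℝ) ≤ √(M : ℝ) := by
        apply Real.le_sqrt_of_sq_le
        rw [sq]
        exact_mod_cast hcase.le
      rw [le_div_iff₀ (by positivity)]
      have h7 : 16 * L ^ (U + 2) ≤ √(M : ℝ) := a3
      have h8 : (1 : ℝ) ≤ 2 ^ (U + 1) := one_le_pow₀ (by norm_num)
      calc (t : ℝ) * (2 * L) * L ^ (U + 1) ≤ √(M : ℝ) * (2 * L) * L ^ (U + 1) := by gcongr
        _ = √(M : ℝ) * (2 * L ^ (U + 2)) := by ring
        _ ≤ √(M : ℝ) * √(M : ℝ) := by
            apply mul_le_mul_of_nonneg_left _ hsq0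
            have : 0 ≤ L ^ (U + 2) := by positivity
            linarith
        _ = M := hsq
        _ ≤ _ := le_mul_of_one_le_left hM0.le h8
  -- the weights
  obtain ⟨w, hw⟩ : ∃ w : ℕ → ℝ, w = fun n => 1 / Real.log (max n 2 : ℕ) := ⟨_, rfl⟩
  have hw0 : ∀ n, 0 ≤ w n := by
    intro n
    rw [hw]
    have := log_max n
    exact div_nonneg (by norm_num) (by linarith)
  have hwm : ∀ n, 1 ≤ n → w (n + 1) ≤ w n := by
    intro n _
    rw [hw]
    apply one_div_le_one_div_of_le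
    · have := log_max n
      linarith
    · apply Real.log_le_log (by exact_mod_cast (by omega : 0 < max n 2))
      exact_mod_cast (by omega : max n 2 ≤ max (n + 1) 2)
  have h5 := abel w hw0 hwm u _ M hS
  have h6 : w 1 ≤ 2 := by rw [hw]; exact inv_log_max 1
  -- prime powers
  classical
  obtain ⟨pp, hpp⟩ : ∃ pp : ℕ → ℝ, pp = fun n => w n * ArithmeticFunction.vonMangoldt n - (if n.Prime then 1 else 0) := ⟨_, rfl⟩
  have hppb : ∀ n ∈ Icc 1 M, |pp n| ≤ if n ∈ Pool.Agent.K7.H49.LT.PP M then 1 else 0 := by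
    intro n hn
    rw [hpp]
    simp only
    by_cases hp : n.Prime
    · have h7 : w n * ArithmeticFunction.vonMangoldt n = 1 := by
        rw [ArithmeticFunction.vonMangoldt_apply_prime hp, hw]
        simp only
        rw [max_eq_left hp.two_le]
        have : 0 < Real.log n := Real.log_pos (by exact_mod_cast hp.one_lt)
        field_simp
      rw [h7, if_pos hp, sub_self, abs_zero]
      split_ifs <;> norm_num
    · rw [if_neg hp, sub_zero]
      by_cases hL : ArithmeticFunction.vonMangoldt n = 0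
      · rw [hL, mul_zero, abs_zero]
        split_ifs <;> norm_num
      · have h7 : n ∈ Pool.Agent.K7.H49.LT.PP M := by
          unfold Pool.Agent.K7.H49.LT.PP
          rw [mem_filter]
          exact ⟨hn, hL, hp⟩
        rw [if_pos h7, abs_of_nonneg (mul_nonneg (hw0 n) ArithmeticFunction.vonMangoldt_nonneg), hw]
        simp only
        have h8 := log_max n
        rw [div_mul_eq_mul_div, one_mul, div_le_one (by linarith)]
        refine ArithmeticFunction.vonMangoldt_le_log.trans ?_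
        rw [mem_Icc] at hn
        apply Real.log_le_log (by exact_mod_cast (by omega : 0 < n))
        exact_mod_cast le_max_left n 2
  have h7 : ‖∑ n ∈ Icc 1 M, ((pp n : ℝ) : ℂ) * e (n * θ)‖ ≤ 4 * (√(M : ℝ) * L) := by
    refine (norm_sum_le _ _).trans ?_
    have h8 : ∀ n ∈ Icc 1 M, ‖((pp n : ℝ) : ℂ) * e (n * θ)‖ ≤ if n ∈ Pool.Agent.K7.H49.LT.PP M then 1 else 0 := by
      intro n hn
      rw [norm_mul, norm_e, mul_one, Complex.norm_real, Real.norm_eq_abs]
      exact hppb n hn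
    refine (sum_le_sum h8).trans ?_
    rw [← sum_filter, sum_const, nsmul_eq_mul, mul_one]
    have h9 := Pool.Agent.K7.H49.LT.pp_card M (by omega)
    rw [← hL] at h9
    refine le_trans ?_ h9
    apply Nat.cast_le.2
    apply card_le_card
    intro n hn
    exact (mem_filter.1 hn).2
  have h8 : ∑ n ∈ Icc 1 M, fP z n * e (n * θ) = ∑ n ∈ Icc 1 M, (w n : ℂ) * u n - ∑ n ∈ Icc 1 M, ((pp n : ℝ) : ℂ) * e (n * θ) := by
    rw [← sum_sub_distrib]
    refine sum_congr rfl fun n hn => ?_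
    rw [mem_Icc] at hn
    unfold fP
    rw [mdl_eq z n hn.1, hpp, hu, hw]
    push_cast
    ring
  rw [h8]
  refine (norm_sub_le _ _).trans ?_
  have h9 : (0 : ℝ) ≤ 2 ^ (U + 1) * M / L ^ (U + 1) := by positivity
  have h10 : ‖∑ n ∈ Icc 1 M, (w n : ℂ) * u n‖ ≤ 2 * (2 ^ (U + 1) * M / L ^ (U + 1)) :=
    h5.trans (mul_le_mul_of_nonneg_right h6 h9)
  have h11 : 2 * (2 ^ (U + 1) * M / L ^ (U + 1)) ≤ (M / L ^ U) / 2 := by
    rw [show 2 * (2 ^ (U + 1) * (M : ℝ) / L ^ (U + 1)) = (4 * 2 ^ (U + 2)) * (M / L ^ U) / (4 * L) by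
      rw [pow_succ L U, pow_succ (2 : ℝ) (U + 1)]
      field_simp]
    rw [div_le_iff₀ (by positivity)]
    obtain ⟨Y, hY⟩ : ∃ Y : ℝ, Y = M / L ^ U := ⟨_, rfl⟩
    rw [← hY]
    have hY0 : (0 : ℝ) ≤ Y := by rw [hY]; positivity
    have := mul_le_mul_of_nonneg_right hLU hY0
    nlinarith
  have h12 : 4 * (√(M : ℝ) * L) ≤ (M / L ^ U) / 2 := by
    rw [div_div, le_div_iff₀ (by positivity)]
    have h13 : 16 * L ^ (U + 2) ≤ √(M : ℝ) := a3
    have h14 : L ^ (U + 1) ≤ L ^ (U + 2) := pow_le_pow_right₀ hL1 (by omega)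
    have h15 : 0 ≤ L ^ (U + 1) := by positivity
    calc 4 * (√(M : ℝ) * L) * (L ^ U * 2) = √(M : ℝ) * (8 * L ^ (U + 1)) := by ring
      _ ≤ √(M : ℝ) * √(M : ℝ) := by
          apply mul_le_mul_of_nonneg_left _ hsq0
          linarith
      _ = M := hsq
  linarith

end Pool.Agent.H96.FL
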