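import Pool.Agent.H96.FL.F

set_option autoImplicit false

/-! # Primes in arbitrary sets of integers shifted by integers near `α v + g + β` -/

namespace Pool.Agent.H96.FL

open Finset
open Pool.Agent.H469R2.NK (e norm_e e_add e_zero conj_e)
open Pool.Agent.TH935.GF (En)
open Pool.Agent.H373R2.T7 (ev_L')

open Classical in
/-- the number of the primes minus the prediction -/
noncomputable def Dif (z : ℕ) (P : Finset ℕ) (h : ℤ) : ℝ :=
  ∑ m ∈ P, ((if ((m : ℤ) + h).toNat.Prime then 1 else 0) - mdl z ((m : ℤ) + h).toNat)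

open Classical in
lemma Del_eq (B N z : ℕ) (P : Finset ℕ) (hP : ∀ m ∈ P, 1 ≤ m ∧ m ≤ B * N) (h : ℤ) (hh : h ≤ (B * N : ℕ)) :
    Del (fun m => if m ∈ P then 1 else 0) (fP z) (2 * B * N) h = ((Dif z P h : ℝ) : ℂ) := by
  unfold Del Dif
  have h1 : ∑ m ∈ Icc 1 (2 * B * N), (if m ∈ P then (1 : ℂ) else 0) * ext (fP z) (2 * B * N) (m + h) =
      ∑ m ∈ P, ext (fP z) (2 * B * N) (m + h) := by
    have h2 : ∀ m ∈ Icc 1 (2 * B * N), (if m ∈ P then (1 : ℂ) else 0) * ext (fP z) (2 * B * N) (m + h) =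
        if m ∈ P then ext (fP z) (2 * B * N) (m + h) else 0 := by
      intro m _
      split_ifs <;> ring
    rw [sum_congr rfl h2, ← sum_filter]
    apply sum_congr _ fun _ _ => rfl
    ext m
    rw [mem_filter, mem_Icc]
    constructor
    · exact fun h3 => h3.2
    · intro h3
      have h4 := hP m h3
      refine ⟨⟨h4.1, ?_⟩, h3⟩
      nlinarith
  rw [h1]
  push_cast
  refine sum_congr rfl fun m hm => ?_
  have h2 := hP m hm
  unfold ext
  by_cases h3 : 1 ≤ (m : ℤ) + h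
  · rw [if_pos]
    · unfold fP
      push_cast
      rfl
    · refine ⟨h3, ?_⟩
      have h4 : (m : ℤ) ≤ ((B * N : ℕ) : ℤ) := by exact_mod_cast h2.2
      have h5 : ((2 * B * N : ℕ) : ℤ) = ((B * N : ℕ) : ℤ) + ((B * N : ℕ) : ℤ) := by push_cast; ring
      omega
  · rw [if_neg (fun h4 => h3 h4.1)]
    have h4 : ((m : ℤ) + h).toNat = 0 := by omega
    rw [h4, mdl_zero, if_neg Nat.not_prime_zero]
    simp

open Classical in
theorem primes_sets (p c B T U : ℕ) (hB : 1 ≤ B) : ∃ C : ℕ, ∀ D : ℕ, ∃ E₀ : ℕ, ∀ E : ℕ, ∃ N₀ : ℕ, ∀ N : ℕ, N₀ ≤ N →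
    ∀ z : ℕ, Real.log N ^ E₀ ≤ z → (z : ℝ) ≤ Real.log N ^ E →
    ∀ (Z : Type) [Fintype Z] (v : Z → ℤ), (∀ x, |v x| ≤ B * N) →
    (En p v : ℝ) * N ≤ Real.log N ^ c * (Fintype.card Z : ℝ) ^ (2 * p) → ∀ g : Z → ℝ,
    ∀ (ι : Type) (I : Finset ι), (I.card : ℝ) ≤ Real.log N ^ T →
    ∀ P : ι → Finset ℕ, (∀ i ∈ I, ∀ m ∈ P i, 1 ≤ m ∧ m ≤ B * N) →
    ∃ 𝓔 : Set ℝ, Cov 𝓔 (Real.log N ^ C) (1 / Real.log N ^ D) ∧ ∀ α ∉ 𝓔, ∀ β : ℝ,
      (((univ : Finset Z).filter fun x => ∃ i ∈ I, ∃ H : ℝ, 1 ≤ H ∧ H ≤ N ∧ H / Real.log N ^ U <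
        ((win (α * v x + g x + β) H).filter
          (fun h : ℤ => |h| ≤ B * N ∧ N / Real.log N ^ U < |Dif z (P i) h|)).card).card : ℝ) ≤
        Fintype.card Z / Real.log N ^ U := by
  obtain ⟨c', hc'⟩ : ∃ c', c' = c + T + 2 := ⟨_, rfl⟩
  obtain ⟨C, hC⟩ := fl_log p c' (2 * B) U (by omega)
  refine ⟨C, fun D => ?_⟩
  obtain ⟨A, N1, h1⟩ := hC D
  obtain ⟨B₀, hsup⟩ := sup_primes (A + 1)
  refine ⟨B₀ + 1, fun E => ?_⟩
  obtain ⟨N2, h2⟩ := hsup E
  obtain ⟨n3, h3⟩ := ev_L' (2 * B + 2 ^ B₀ + 5)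
  refine ⟨max (max N1 N2) (max n3 (2 * B + 3)), fun N hN z hz1 hz2 Z _ v hv hE g ι I hI P hP => ?_⟩
  have b1 : N1 ≤ N := le_trans (le_trans (le_max_left _ _) (le_max_left _ _)) hN
  have b2 : N2 ≤ N := le_trans (le_trans (le_max_right _ _) (le_max_left _ _)) hN
  have a3 := h3 N (le_trans (le_trans (le_max_left _ _) (le_max_right _ _)) hN)
  have b4 : 2 * B + 3 ≤ N := le_trans (le_trans (le_max_right _ _) (le_max_right _ _)) hN
  have hN0 : (0 : ℝ) < N := by exact_mod_cast (by omega : 0 < N)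
  have hB1 : (1 : ℝ) ≤ B := by exact_mod_cast hB
  have hBN : N ≤ 2 * B * N := by nlinarith
  obtain ⟨L, hL⟩ : ∃ L, L = Real.log (N : ℝ) := ⟨_, rfl⟩
  have hP0 : (0 : ℝ) < 2 ^ B₀ := by positivity
  have hL5 : 5 ≤ L := by rw [hL]; linarith
  have hL2B : 2 * B ≤ L := by rw [hL]; linarith
  have hLP : 2 ^ B₀ ≤ L := by rw [hL]; linarith
  have hL1 : 1 ≤ L := by linarith
  have hL0 : 0 < L := by linarith
  obtain ⟨M, hM⟩ : ∃ M, M = 2 * B * N := ⟨_, rfl⟩
  have hMr : (M : ℝ) = 2 * B * N := by rw [hM]; push_cast; ring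
  obtain ⟨L', hL'⟩ : ∃ L', L' = Real.log (M : ℝ) := ⟨_, rfl⟩
  have hLL' : L ≤ L' := by
    rw [hL, hL']
    exact Real.log_le_log hN0 (by exact_mod_cast (by rw [hM]; exact hBN))
  have hL'L : L' ≤ 2 * L := by
    have h5 : (M : ℝ) ≤ N * N := by
      rw [hMr]
      apply mul_le_mul_of_nonneg_right _ hN0.le
      exact_mod_cast (by omega : 2 * B ≤ N)
    have h6 : L' ≤ Real.log ((N : ℝ) * N) := by
      rw [hL']
      exact Real.log_le_log (by rw [hMr]; positivity) h5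
    rw [Real.log_mul hN0.ne' hN0.ne', ← hL] at h6
    linarith
  have hL'0 : 0 < L' := by linarith
  have hMN : N ≤ M := by rw [hM]; exact hBN
  have h5 := h2 M (b2.trans hMN) z (by
    rw [← hL']
    rw [← hL] at hz1
    refine le_trans ?_ hz1
    calc L' ^ B₀ ≤ (2 * L) ^ B₀ := pow_le_pow_left₀ hL'0.le hL'L _
      _ = 2 ^ B₀ * L ^ B₀ := mul_pow _ _ _
      _ ≤ L * L ^ B₀ := mul_le_mul_of_nonneg_right hLP (by positivity)
      _ = _ := by rw [pow_succ]; ring) (by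
    rw [← hL']
    rw [← hL] at hz2
    exact hz2.trans (pow_le_pow_left₀ hL0.le hLL' _))
  obtain ⟨hsupM, hmdl⟩ := h5
  rw [← hL'] at hsupM hmdl
  rw [← hL] at hE hI
  have h6 := h1 N b1 Z v (fun x => (hv x).trans (by
      have : (0 : ℤ) ≤ (B : ℤ) * N := by positivity
      push_cast
      linarith)) (by
      rw [← hL]
      refine hE.trans ?_
      apply mul_le_mul_of_nonneg_right _ (by positivity)
      exact pow_le_pow_right₀ hL1 (by omega)) g ι I (by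
      rw [← hL]
      exact hI.trans (pow_le_pow_right₀ hL1 (by omega)))
    (fun i m => if m ∈ P i then 1 else 0) (fun i _ m _ => by
      rw [← hL]
      have : 1 ≤ L ^ c' := one_le_pow₀ hL1
      split_ifs
      · rw [norm_one]; exact this
      · rw [norm_zero]; linarith) (fP z) (fun m _ => by
      rw [← hL]
      unfold fP
      rw [Complex.norm_real, Real.norm_eq_abs]
      have h7 := mdl_nonneg z m
      have h8 := hmdl m
      have h9 : L ^ 2 ≤ L ^ c' := pow_le_pow_right₀ hL1 (by omega)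
      have h10 : |(if m.Prime then (1 : ℝ) else 0) - mdl z m| ≤ 1 + 2 * L' := by
        rw [abs_le]
        split_ifs <;> constructor <;> linarith
      refine h10.trans (le_trans ?_ h9)
      nlinarith) (by
      intro θ
      rw [← hL]
      have h7 := hsupM θ
      rw [hM] at h7
      refine h7.trans ?_
      rw [← hM, hMr]
      have h8 : L ^ (A + 1) ≤ L' ^ (A + 1) := pow_le_pow_left₀ hL0.le hLL' _
      calc 2 * (B : ℝ) * N / L' ^ (A + 1) ≤ 2 * B * N / L ^ (A + 1) :=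
            div_le_div_of_nonneg_left (by positivity) (by positivity) h8
        _ ≤ L * N / L ^ (A + 1) := by
            apply div_le_div_of_nonneg_right _ (by positivity)
            exact mul_le_mul_of_nonneg_right hL2B hN0.le
        _ = _ := by rw [pow_succ]; field_simp)
  obtain ⟨𝓔, hE1, hE2⟩ := h6
  refine ⟨𝓔, hE1, fun α hα β => ?_⟩
  refine le_trans ?_ (hE2 α hα β)
  apply Nat.cast_le.2
  apply card_le_card
  intro x hx
  rw [mem_filter] at hx ⊢
  obtain ⟨h7, i, hi, H, hH1, hH2, hH3⟩ := hx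
  refine ⟨h7, i, hi, H, hH1, hH2, hH3.trans_le ?_⟩
  apply Nat.cast_le.2
  apply card_le_card
  intro h hh
  rw [mem_filter] at hh ⊢
  refine ⟨hh.1, ?_⟩
  have h8 := (abs_le.1 hh.2.1).2
  rw [Del_eq B N z (P i) (hP i hi) h (by push_cast; exact h8), Complex.norm_real, Real.norm_eq_abs]
  exact hh.2.2

end Pool.Agent.H96.FL
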