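import Pool.Agent.H96.FL.C
import Mathlib.Topology.MetricSpace.HausdorffDimension

set_option autoImplicit false

/-! # The Hausdorff dimension of the exceptional sets -/

namespace Pool.Agent.H96.FL

open Filter MeasureTheory Set
open scoped ENNReal NNReal Topology

lemma ediam_ball (t δ : ℝ) (_hδ : 0 ≤ δ) : Metric.ediam {α : ℝ | |α - t| ≤ δ} ≤ ENNReal.ofReal (2 * δ) := by
  apply Metric.ediam_le
  intro x hx y hy
  rw [edist_dist, Real.dist_eq]
  apply ENNReal.ofReal_le_ofReal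
  have hx' : |x - t| ≤ δ := hx
  have hy' : |y - t| ≤ δ := hy
  have h1 := abs_sub_le x t y
  rw [abs_sub_comm t y] at h1
  linarith

/-- a Borel-Cantelli lemma for the Hausdorff dimension -/
theorem dim_limsup (E : ℕ → Set ℝ) (n δ : ℕ → ℝ) (σ : ℝ≥0) (hσ : 0 < σ) (hE : ∀ i, Cov (E i) (n i) (δ i))
    (hδ0 : ∀ i, 0 ≤ δ i) (hδ : Antitone δ) (hδt : Tendsto δ atTop (𝓝 0))
    (hs : Summable fun i => n i * (2 * δ i) ^ (σ : ℝ)) : dimH {α : ℝ | ∃ᶠ i in atTop, α ∈ E i} ≤ σ := by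
  have hn0 : ∀ i, 0 ≤ n i := by
    intro i
    obtain ⟨T, h1, _⟩ := hE i 0
    exact (Nat.cast_nonneg _).trans h1
  have hcov : {α : ℝ | ∃ᶠ i in atTop, α ∈ E i} ⊆ ⋃ m : ℤ, ({α : ℝ | ∃ᶠ i in atTop, α ∈ E i} ∩ Icc (m : ℝ) (m + 1)) := by
    intro α hα
    rw [mem_iUnion]
    exact ⟨⌊α⌋, hα, Int.floor_le α, (Int.lt_floor_add_one α).le⟩
  refine (dimH_mono hcov).trans ?_
  rw [dimH_iUnion]
  refine iSup_le fun m => ?_
  apply dimH_le_of_hausdorffMeasure_ne_top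
  choose T hT1 hT2 using fun i => hE i (m : ℝ)
  have h1 := Measure.hausdorffMeasure_le_liminf_tsum (X := ℝ) (β := ℕ) (ι := fun k => Σ i : ℕ, {t // t ∈ T (i + k)}) (σ : ℝ)
    ({α : ℝ | ∃ᶠ i in atTop, α ∈ E i} ∩ Icc (m : ℝ) (m + 1)) (l := atTop)
    (fun k => ENNReal.ofReal (2 * δ k)) (by
      have h2 : Tendsto (fun k => 2 * δ k) atTop (𝓝 (2 * 0)) := hδt.const_mul 2
      rw [mul_zero] at h2
      have h3 := ENNReal.tendsto_ofReal h2
      rwa [ENNReal.ofReal_zero] at h3)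
    (fun k x => {α : ℝ | |α - (x.2 : ℝ)| ≤ δ (x.1 + k)})
    (Eventually.of_forall fun k x => (ediam_ball _ _ (hδ0 _)).trans (ENNReal.ofReal_le_ofReal
      (mul_le_mul_of_nonneg_left (hδ (Nat.le_add_left _ _)) (by norm_num))))
    (Eventually.of_forall fun k => by
      rintro α ⟨hα1, hα2, hα3⟩
      obtain ⟨j, hj1, hj2⟩ := (frequently_atTop.1 hα1) k
      obtain ⟨t, ht, h4⟩ := hT2 j α hj2 hα2 hα3
      obtain ⟨i, rfl⟩ : ∃ i, j = i + k := ⟨j - k, by omega⟩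
      rw [mem_iUnion]
      exact ⟨⟨i, t, ht⟩, h4⟩)
  have h2 : ∀ k : ℕ, ∑' x : (Σ i : ℕ, {t // t ∈ T (i + k)}), Metric.ediam {α : ℝ | |α - (x.2 : ℝ)| ≤ δ (x.1 + k)} ^ (σ : ℝ) ≤
      ∑' i : ℕ, ENNReal.ofReal (n (i + k) * (2 * δ (i + k)) ^ (σ : ℝ)) := by
    intro k
    rw [ENNReal.tsum_sigma']
    refine ENNReal.tsum_le_tsum fun i => ?_
    rw [tsum_fintype]
    have h3 : ∀ x : {t // t ∈ T (i + k)}, Metric.ediam {α : ℝ | |α - (x : ℝ)| ≤ δ (i + k)} ^ (σ : ℝ) ≤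
        ENNReal.ofReal ((2 * δ (i + k)) ^ (σ : ℝ)) := by
      intro x
      rw [← ENNReal.ofReal_rpow_of_nonneg (by have := hδ0 (i + k); positivity) (by positivity)]
      exact ENNReal.rpow_le_rpow (ediam_ball _ _ (hδ0 _)) (by positivity)
    refine (Finset.sum_le_sum fun x _ => h3 x).trans ?_
    rw [Finset.sum_const, Finset.card_univ, Fintype.card_coe, nsmul_eq_mul,
      ENNReal.ofReal_mul (hn0 _), ← ENNReal.ofReal_natCast]
    apply mul_le_mul_left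
    exact ENNReal.ofReal_le_ofReal (hT1 (i + k))
  have h3 : Tendsto (fun k : ℕ => ∑' i : ℕ, ENNReal.ofReal (n (i + k) * (2 * δ (i + k)) ^ (σ : ℝ))) atTop (𝓝 0) := by
    apply ENNReal.tendsto_sum_nat_add (fun i => ENNReal.ofReal (n i * (2 * δ i) ^ (σ : ℝ)))
    exact hs.tsum_ofReal_ne_top
  have h4 : liminf (fun k : ℕ => ∑' x : (Σ i : ℕ, {t // t ∈ T (i + k)}),
      Metric.ediam {α : ℝ | |α - (x.2 : ℝ)| ≤ δ (x.1 + k)} ^ (σ : ℝ)) atTop ≤ 0 := by
    rw [← h3.liminf_eq]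
    exact liminf_le_liminf (Eventually.of_forall h2)
  have h5 := h1.trans h4
  rw [nonpos_iff_eq_zero] at h5
  rw [h5]
  exact ENNReal.zero_ne_top

/-- the exceptional sets at the scales `2 ^ i` -/
theorem dim_log (E : ℕ → Set ℝ) (C D i₀ : ℕ) (σ : ℝ≥0) (hσ : 0 < σ) (hD : (C : ℝ) + 2 ≤ D * σ) (hD1 : 1 ≤ D) (hi₀ : 2 ≤ i₀)
    (hE : ∀ i, Cov (E i) (Real.log ((2 ^ (i + i₀) : ℕ) : ℝ) ^ C) (1 / Real.log ((2 ^ (i + i₀) : ℕ) : ℝ) ^ D)) :
    dimH {α : ℝ | ∃ᶠ i in atTop, α ∈ E i} ≤ σ := by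
  obtain ⟨x, hx⟩ : ∃ x : ℕ → ℝ, x = fun i => Real.log ((2 ^ (i + i₀) : ℕ) : ℝ) := ⟨_, rfl⟩
  have hx1 : ∀ i, x i = ((i : ℝ) + i₀) * Real.log 2 := by
    intro i
    rw [hx]
    push_cast
    rw [Real.log_pow]
    push_cast
    ring
  have hl2 : (1 : ℝ) / 2 ≤ Real.log 2 := by have := Real.log_two_gt_d9; linarith
  have hi₀' : (2 : ℝ) ≤ i₀ := by exact_mod_cast hi₀
  have hx2 : ∀ i : ℕ, ((i : ℝ) + 1) / 2 ≤ x i := by
    intro i
    rw [hx1]
    have : (0 : ℝ) ≤ i := Nat.cast_nonneg i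
    nlinarith
  have hx3 : ∀ i : ℕ, 1 ≤ x i := by
    intro i
    rw [hx1]
    have : (0 : ℝ) ≤ i := Nat.cast_nonneg i
    nlinarith
  have hx4 : ∀ i, 0 < x i := fun i => by linarith [hx3 i]
  have hE' : ∀ i, Cov (E i) (x i ^ C) (1 / x i ^ D) := by
    rw [hx]
    exact hE
  apply dim_limsup E (fun i => x i ^ C) (fun i => 1 / x i ^ D) σ hσ hE'
  · intro i
    have := hx4 i
    positivity
  · intro i j hij
    apply one_div_le_one_div_of_le (pow_pos (hx4 i) _)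
    apply pow_le_pow_left₀ (hx4 i).le
    rw [hx1, hx1]
    have : (i : ℝ) ≤ j := by exact_mod_cast hij
    nlinarith
  · apply squeeze_zero (g := fun i : ℕ => 2 / ((i : ℝ) + 1))
    · intro i
      have := hx4 i
      positivity
    · intro i
      have h1 := hx2 i
      have h2 : x i ≤ x i ^ D := le_self_pow₀ (hx3 i) (by omega)
      have h3 : (0 : ℝ) < (i : ℝ) + 1 := by positivity
      rw [div_le_div_iff₀ (pow_pos (hx4 i) _) h3]
      linarith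
    · have h1 := tendsto_one_div_add_atTop_nhds_zero_nat (𝕜 := ℝ)
      have h2 := h1.const_mul 2
      rw [mul_zero] at h2
      refine h2.congr fun i => ?_
      ring
  · have hs : Summable fun i : ℕ => (4 * 2 ^ (σ : ℝ)) * (1 / (((i + 1 : ℕ) : ℝ)) ^ 2) :=
      ((summable_nat_add_iff 1).2 (Real.summable_one_div_nat_pow.2 one_lt_two)).mul_left _
    apply Summable.of_nonneg_of_le _ _ hs
    · intro i
      have := hx4 i
      positivity
    · intro i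
      have h1 := hx4 i
      have h2 := hx3 i
      have h3 : (2 * (1 / x i ^ D)) ^ (σ : ℝ) = 2 ^ (σ : ℝ) / x i ^ ((D : ℝ) * σ) := by
        rw [mul_one_div, Real.div_rpow (by norm_num) (by positivity), ← Real.rpow_natCast (x i) D, ← Real.rpow_mul h1.le]
      have h4 : x i ^ ((C : ℝ) + 2) ≤ x i ^ ((D : ℝ) * σ) := Real.rpow_le_rpow_of_exponent_le h2 hD
      have h5 : x i ^ ((C : ℝ) + 2) = x i ^ C * x i ^ 2 := by
        rw [Real.rpow_add h1, Real.rpow_natCast, Real.rpow_two]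
      have h6 : (0 : ℝ) < 2 ^ (σ : ℝ) := by positivity
      have h7 : (((i + 1 : ℕ) : ℝ)) ^ 2 ≤ 4 * x i ^ 2 := by
        have h8 := hx2 i
        have h9 : ((i + 1 : ℕ) : ℝ) ≤ 2 * x i := by push_cast; linarith
        calc (((i + 1 : ℕ) : ℝ)) ^ 2 ≤ (2 * x i) ^ 2 := pow_le_pow_left₀ (by positivity) h9 2
          _ = _ := by ring
      rw [h3]
      calc x i ^ C * (2 ^ (σ : ℝ) / x i ^ ((D : ℝ) * σ)) ≤ x i ^ C * (2 ^ (σ : ℝ) / (x i ^ C * x i ^ 2)) := by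
            apply mul_le_mul_of_nonneg_left _ (by positivity)
            apply div_le_div_of_nonneg_left h6.le (by positivity)
            rw [← h5]
            exact h4
        _ = 2 ^ (σ : ℝ) / x i ^ 2 := by field_simp
        _ ≤ _ := by
            have h8 : (0 : ℝ) < (((i + 1 : ℕ) : ℝ)) ^ 2 := by positivity
            rw [mul_one_div, div_le_div_iff₀ (by positivity) h8]
            calc 2 ^ (σ : ℝ) * (((i + 1 : ℕ) : ℝ)) ^ 2 ≤ 2 ^ (σ : ℝ) * (4 * x i ^ 2) := mul_le_mul_of_nonneg_left h7 h6.le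
              _ = _ := by ring

end Pool.Agent.H96.FL
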