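import Pool.Agent.H96.FL.D

set_option autoImplicit false

/-! # Sets with small Fourier coefficients at `α v + g + β`: the qualitative form -/

namespace Pool.Agent.H96.FL

open Finset
open Pool.Agent.H469R2.NK (e norm_e e_add e_zero conj_e)
open Pool.Agent.TH935.GF (En)

open Classical in
/-- Correlations of an arbitrary set with a bounded function with small exponential sums. -/
theorem fl_qual (t B R W : ℕ) (hB : 1 ≤ B) (K ε : ℝ) (hε : 0 < ε) : ∃ C : ℝ, ∀ δ : ℝ, 0 < δ → ∃ η : ℝ, 0 < η ∧ ∃ N₀ : ℕ, ∀ N : ℕ, N₀ ≤ N →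
    ∀ f : ℕ → ℂ, (∀ n, ‖f n‖ ≤ 1) → (∀ θ : ℝ, ‖∑ m ∈ Icc 1 (2 * B * N), f m * e (m * θ)‖ ≤ η * N) →
    ∀ (Z : Type) [Fintype Z] (v : Z → ℤ), (∀ x, |v x| ≤ B * N) →
    (En t v : ℝ) * N ≤ K * (Fintype.card Z : ℝ) ^ (2 * t) → ∀ g : Z → ℝ,
    ∀ A : Fin R → Finset ℕ, (∀ i, A i ⊆ Icc 1 (B * N)) →
    ∃ E : Set ℝ, Cov E C δ ∧ ∀ α ∉ E, ∀ β : ℝ,
      (((univ : Finset Z).filter fun x => ∃ i, ∃ h : ℤ, |(h : ℝ) - (α * v x + g x + β)| ≤ W ∧
        ε * N < ‖Del (fun m => if m ∈ A i then 1 else 0) f (2 * B * N) h‖).card : ℝ) ≤ ε * Fintype.card Z := by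
  obtain ⟨K₁, hK₁⟩ : ∃ K₁ : ℝ, K₁ = max K 0 := ⟨_, rfl⟩
  have hK0 : 0 ≤ K₁ := by rw [hK₁]; exact le_max_right _ _
  have hKK : K ≤ K₁ := by rw [hK₁]; exact le_max_left _ _
  have hB1 : (1 : ℝ) ≤ B := by exact_mod_cast hB
  have hB0 : (0 : ℝ) < B := by linarith
  -- the parameters
  obtain ⟨Λ, hΛ⟩ : ∃ Λ : ℝ, Λ = 192 * (W + 1) * (R + 1) * B ^ 2 / ε ^ 3 := ⟨_, rfl⟩
  have hΛ0 : 0 < Λ := by rw [hΛ]; positivity
  refine ⟨R * (12 * (t + 1) * (B * K₁) * Λ ^ (2 * t)), fun δ hδ => ?_⟩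
  obtain ⟨R₀, hR₀⟩ : ∃ R₀ : ℝ, R₀ = 1 + 24 * (W + 2) / δ := ⟨_, rfl⟩
  have hR1 : 1 ≤ R₀ := by
    rw [hR₀]
    have : (0 : ℝ) ≤ 24 * (W + 2) / δ := by positivity
    linarith
  have hR0 : 0 < R₀ := by linarith
  obtain ⟨η, hη⟩ : ∃ η : ℝ, η = min 1 (ε ^ 3 / (288 * (W + 1) * (R + 1) * B * R₀)) := ⟨_, rfl⟩
  have hη0 : 0 < η := by
    rw [hη]
    exact lt_min one_pos (by positivity)
  have hη1 : η ≤ 1 := by rw [hη]; exact min_le_left _ _
  have hη2 : η ≤ ε ^ 3 / (288 * (W + 1) * (R + 1) * B * R₀) := by rw [hη]; exact min_le_right _ _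
  refine ⟨η, hη0, 2, fun N hN f hf hS Z _ v hv hE g A hA => ?_⟩
  have hN0 : (0 : ℝ) < N := by exact_mod_cast (by omega : 0 < N)
  have hN1 : (1 : ℝ) ≤ N := by exact_mod_cast (by omega : 1 ≤ N)
  have hBN1 : 1 ≤ B * N := Nat.one_le_iff_ne_zero.2 (by positivity)
  have hBNr : (1 : ℝ) ≤ B * N := by exact_mod_cast hBN1
  obtain ⟨Q, hQ⟩ : ∃ Q, Q = 12 * (W + 1) * (B * N) + 1 := ⟨_, rfl⟩
  have : NeZero Q := ⟨by omega⟩
  have hQr : (Q : ℝ) = 12 * (W + 1) * (B * N) + 1 := by rw [hQ]; push_cast; ring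
  have hWBN : (0 : ℝ) ≤ W * (B * N) := by positivity
  have hQ0 : (0 : ℝ) < Q := by rw [hQr]; positivity
  have hQBN : (B : ℝ) * N ≤ Q := by rw [hQr]; linarith
  have hMQ : 2 * (2 * B * N) < Q := by
    rw [hQ]
    have h0 : 2 * (2 * B * N) = 4 * (B * N) := by ring
    have h1 : 12 * (W + 1) * (B * N) = 12 * (W * (B * N)) + 12 * (B * N) := by ring
    omega
  have hQup : (Q : ℝ) ≤ 24 * (W + 2) * (B * N) := by rw [hQr]; linarith
  have hYn : (0 : ℝ) ≤ Fintype.card Z := Nat.cast_nonneg _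
  have hA2 : ∀ i, ∑ m ∈ Icc 1 (2 * B * N), ‖(if m ∈ A i then (1 : ℂ) else 0)‖ ^ 2 ≤ B * N := by
    intro i
    have h1 : ∀ m ∈ Icc 1 (2 * B * N), ‖(if m ∈ A i then (1 : ℂ) else 0)‖ ^ 2 = if m ∈ A i then 1 else 0 := by
      intro m _
      split_ifs <;> simp
    rw [sum_congr rfl h1, ← sum_filter, sum_const, nsmul_eq_mul, mul_one]
    have h2 : ((Icc 1 (2 * B * N)).filter (fun m => m ∈ A i)).card ≤ B * N := by
      have h3 : (Icc 1 (2 * B * N)).filter (fun m => m ∈ A i) ⊆ Icc 1 (B * N) := fun m hm => hA i (mem_filter.1 hm).2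
      have h4 := card_le_card h3
      rwa [Nat.card_Icc, Nat.add_sub_cancel] at h4
    exact_mod_cast h2
  have hF2 : ∑ m ∈ Icc 1 (2 * B * N), ‖f m‖ ^ 2 ≤ 2 * B * N := by
    have h1 : ∀ m ∈ Icc 1 (2 * B * N), ‖f m‖ ^ 2 ≤ 1 := fun m _ => pow_le_one₀ (norm_nonneg _) (hf m)
    refine (sum_le_sum h1).trans ?_
    rw [sum_const, Nat.card_Icc, nsmul_eq_mul, mul_one, Nat.add_sub_cancel]
    push_cast
    exact le_refl _
  have hE' : (En t v : ℝ) * ((B * N : ℕ) : ℝ) ≤ (B * K₁) * (Fintype.card Z : ℝ) ^ (2 * t) := by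
    push_cast
    have h1 : K * (Fintype.card Z : ℝ) ^ (2 * t) ≤ K₁ * (Fintype.card Z : ℝ) ^ (2 * t) :=
      mul_le_mul_of_nonneg_right hKK (by positivity)
    calc (En t v : ℝ) * (B * N) = B * (En t v * N) := by ring
      _ ≤ B * (K₁ * (Fintype.card Z : ℝ) ^ (2 * t)) := mul_le_mul_of_nonneg_left (hE.trans h1) hB0.le
      _ = _ := by ring
  have hv' : ∀ x, |v x| ≤ ((B * N : ℕ) : ℤ) := by
    intro x
    push_cast
    exact hv x
  have hBN2 : 2 ≤ B * N := by nlinarith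
  have hmain : ∀ i : Fin R, ∃ E : Set ℝ, Cov E (12 * (t + 1) * (B * K₁) * Λ ^ (2 * t)) (Q / (R₀ * ((B * N : ℕ) : ℝ))) ∧
      ∀ α ∉ E, ∀ β : ℝ, (((univ : Finset Z).filter fun x => ∃ h : ℤ, |(h : ℝ) - (α * v x + g x + β)| ≤ W ∧
        ε * N < ‖Del (fun m => if m ∈ A i then 1 else 0) f (2 * B * N) h‖).card : ℝ) * (ε * N) ^ 2 ≤
        48 * (W + 1) * Fintype.card Z * (3 * R₀ * ((η * N) ^ 2 * (B * N) / Q) + (B * N) * (2 * B * N) / Λ) := by
    intro i
    obtain ⟨a, ha⟩ : ∃ a : ℕ → ℂ, a = fun m => if m ∈ A i then 1 else 0 := ⟨_, rfl⟩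
    have hA2i : ∑ m ∈ Icc 1 (2 * B * N), ‖a m‖ ^ 2 ≤ B * N := by rw [ha]; exact hA2 i
    rw [← ha]
    have hMQ' : 2 * B * N < Q := by omega
    obtain ⟨a', ha'⟩ : ∃ a', a' = lift Q (2 * B * N) a := ⟨_, rfl⟩
    obtain ⟨f', hf'⟩ : ∃ f', f' = lift Q (2 * B * N) f := ⟨_, rfl⟩
    obtain ⟨G, hGd⟩ : ∃ G : ZMod Q → ℝ, G = fun h => ‖cor a' f' h‖ ^ 2 := ⟨_, rfl⟩
    have hG : ∀ h, 0 ≤ G h := fun h => by rw [hGd]; positivity
    have hA3 : ∑ j, ‖a' j‖ ^ 2 ≤ B * N := by rw [ha', lift_norm _ hMQ']; exact hA2i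
    have hF3 : ∑ j, ‖f' j‖ ^ 2 ≤ 2 * B * N := by rw [hf', lift_norm _ hMQ']; exact hF2
    have hGsum : ∑ h, G h ≤ (η * N) ^ 2 * (B * N) := by
      rw [hGd]
      have h1 := l2_cor a' f' (η * N) (fun ξ => by rw [hf']; exact lift_ft _ hMQ' f (η * N) hS ξ)
      refine h1.trans ?_
      exact mul_le_mul_of_nonneg_left hA3 (by positivity)
    obtain ⟨E, hE1, hE2⟩ := fl_main t (B * N) hBN2 Q R₀ Λ ((B * N) * (2 * B * N)) (B * K₁)
      (3 * R₀ * ((η * N) ^ 2 * (B * N) / Q)) hR0 hΛ0 (by positivity) Z v hv' g hE' G hG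
      (fun R hR => by
        rw [hGd]
        refine (cf_l1 a' f' R (fun r hr => (hR r hr).2)).trans ?_
        exact mul_le_mul hA3 hF3 (sum_nonneg fun _ _ => by positivity) (by positivity))
      (fun R hR => by
        have h1 : ∀ r ∈ R, ‖cf Q G r‖ ≤ (η * N) ^ 2 * (B * N) / Q := by
          intro r _
          refine (cf_le G hG r).trans ?_
          rw [div_mul_eq_mul_div, one_mul]
          exact div_le_div_of_nonneg_right hGsum hQ0.le
        refine (sum_le_sum h1).trans ?_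
        rw [sum_const, nsmul_eq_mul]
        apply mul_le_mul_of_nonneg_right _ (by positivity)
        have h2 : R ⊆ Icc (-(⌊R₀⌋ : ℤ)) ⌊R₀⌋ := by
          intro r hr
          have h3 := (abs_lt.1 (hR r hr).1)
          rw [mem_Icc]
          constructor
          · have : -r ≤ ⌊R₀⌋ := Int.le_floor.2 (by push_cast; linarith)
            omega
          · exact Int.le_floor.2 h3.2.le
        have h3 := card_le_card h2
        rw [Int.card_Icc] at h3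
        have h4 : 0 ≤ ⌊R₀⌋ := Int.floor_nonneg.2 (by linarith)
        have h5 : (R.card : ℤ) ≤ 2 * ⌊R₀⌋ + 1 := by omega
        have h6 : (R.card : ℝ) ≤ 2 * (⌊R₀⌋ : ℝ) + 1 := by exact_mod_cast h5
        have h7 := Int.floor_le R₀
        linarith)
    refine ⟨E, hE1, fun α hα β => ?_⟩
    have h1 := hE2 α hα β (W + 1) (by have : (0 : ℝ) ≤ W := Nat.cast_nonneg _; linarith) (by
      rw [hQr]
      have : (0 : ℝ) ≤ W := Nat.cast_nonneg _
      have : (W + 1 : ℝ) * 1 ≤ (W + 1) * (B * N) := mul_le_mul_of_nonneg_left hBNr (by positivity)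
      linarith) (fun x => win (α * v x + g x + β) (W + 1)) (fun x h hh => mem_win.1 hh)
    refine le_trans ?_ h1
    rw [← nsmul_eq_mul, ← sum_const]
    refine le_trans ?_ (sum_le_sum_of_subset_of_nonneg (subset_univ ((univ : Finset Z).filter fun x => ∃ h : ℤ,
      |(h : ℝ) - (α * v x + g x + β)| ≤ W ∧ ε * N < ‖Del a f (2 * B * N) h‖)) fun x _ _ => sum_nonneg fun _ _ => hG _)
    apply sum_le_sum
    intro x hx
    obtain ⟨h, hh1, hh2⟩ := (mem_filter.1 hx).2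
    have h2 : (ε * N) ^ 2 ≤ G (h : ZMod Q) := by
      refine (pow_le_pow_left₀ (by positivity) hh2.le 2).trans ?_
      rw [hGd, ha', hf']
      exact Del_le _ hMQ a f h
    refine h2.trans ?_
    apply single_le_sum (f := fun h : ℤ => G (h : ZMod Q)) (fun _ _ => hG _)
    rw [mem_win]
    linarith
  choose E hE1 hE2 using hmain
  refine ⟨⋃ i ∈ (univ : Finset (Fin R)), E i, ?_, ?_⟩
  · refine (Cov.iUnion univ E _ _ fun i _ => hE1 i).mono (le_refl _) ?_ ?_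
    · rw [card_univ, Fintype.card_fin]
    · push_cast
      rw [div_le_iff₀ (by positivity)]
      refine hQup.trans ?_
      have h1 : 24 * ((W : ℝ) + 2) ≤ δ * R₀ := by
        have h2 : δ * (1 + 24 * ((W : ℝ) + 2) / δ) = δ + 24 * ((W : ℝ) + 2) := by field_simp
        rw [hR₀, h2]
        linarith
      calc 24 * ((W : ℝ) + 2) * (B * N) ≤ (δ * R₀) * (B * N) := mul_le_mul_of_nonneg_right h1 (by positivity)
        _ = _ := by ring
  · intro α hα β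
    have hα' : ∀ i, α ∉ E i := by
      intro i hmem
      exact hα (Set.mem_iUnion₂.2 ⟨i, mem_univ _, hmem⟩)
    have hone : ∀ i : Fin R, (((univ : Finset Z).filter fun x => ∃ h : ℤ, |(h : ℝ) - (α * v x + g x + β)| ≤ W ∧
        ε * N < ‖Del (fun m => if m ∈ A i then 1 else 0) f (2 * B * N) h‖).card : ℝ) ≤ ε * Fintype.card Z / (R + 1) := by
      intro i
      have h1 := hE2 i α (hα' i) β
      have h2 : 3 * R₀ * ((η * N) ^ 2 * (B * N) / Q) ≤ 3 * R₀ * B * η * N ^ 2 / (B : ℝ) := by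
        have h3 : (B : ℝ) * N / Q ≤ 1 := (div_le_one hQ0).2 hQBN
        have h4 : 3 * R₀ * ((η * N) ^ 2 * (B * N) / Q) = (3 * R₀ * (η * N) ^ 2) * (B * N / Q) := by ring
        rw [h4]
        calc (3 * R₀ * (η * N) ^ 2) * ((B : ℝ) * N / Q) ≤ (3 * R₀ * (η * N) ^ 2) * 1 :=
              mul_le_mul_of_nonneg_left h3 (by positivity)
          _ = 3 * R₀ * η * N ^ 2 * η := by ring
          _ ≤ 3 * R₀ * η * N ^ 2 * 1 := mul_le_mul_of_nonneg_left hη1 (by positivity)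
          _ = _ := by field_simp
      have h3 : 3 * R₀ * B * η * N ^ 2 / (B : ℝ) ≤ ε ^ 3 * N ^ 2 / (96 * (W + 1) * (R + 1)) := by
        have h4 : 3 * R₀ * B * η * (N : ℝ) ^ 2 / (B : ℝ) = (3 * R₀ * N ^ 2) * η := by field_simp
        rw [h4]
        calc (3 * R₀ * (N : ℝ) ^ 2) * η ≤ (3 * R₀ * N ^ 2) * (ε ^ 3 / (288 * (W + 1) * (R + 1) * B * R₀)) :=
              mul_le_mul_of_nonneg_left hη2 (by positivity)
          _ = (ε ^ 3 * N ^ 2 / (96 * (W + 1) * (R + 1))) / B := by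
              field_simp
              ring
          _ ≤ _ := div_le_self (by positivity) hB1
      have h4 : (B * N : ℝ) * (2 * B * N) / Λ ≤ ε ^ 3 * N ^ 2 / (96 * (W + 1) * (R + 1)) := by
        rw [hΛ]
        apply le_of_eq
        field_simp
        ring
      have h5 : 3 * R₀ * ((η * N) ^ 2 * (B * N) / Q) + (B * N) * (2 * B * N) / Λ ≤
          2 * (ε ^ 3 * N ^ 2 / (96 * (W + 1) * (R + 1))) := by linarith
      have h6 : 48 * (W + 1) * (Fintype.card Z : ℝ) * (3 * R₀ * ((η * N) ^ 2 * (B * N) / Q) + (B * N) * (2 * B * N) / Λ) ≤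
          48 * (W + 1) * (Fintype.card Z : ℝ) * (2 * (ε ^ 3 * N ^ 2 / (96 * (W + 1) * (R + 1)))) :=
        mul_le_mul_of_nonneg_left h5 (by positivity)
      have h7 : 48 * (W + 1) * (Fintype.card Z : ℝ) * (2 * (ε ^ 3 * N ^ 2 / (96 * (W + 1) * (R + 1)))) =
          (ε * Fintype.card Z / (R + 1)) * (ε * N) ^ 2 := by
        field_simp
        ring
      rw [h7] at h6
      exact le_of_mul_le_mul_right (h1.trans h6) (by positivity)
    have hsub : ((univ : Finset Z).filter fun x => ∃ i, ∃ h : ℤ, |(h : ℝ) - (α * v x + g x + β)| ≤ W ∧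
        ε * N < ‖Del (fun m => if m ∈ A i then 1 else 0) f (2 * B * N) h‖) ⊆
        (univ : Finset (Fin R)).biUnion fun i => (univ : Finset Z).filter fun x => ∃ h : ℤ,
          |(h : ℝ) - (α * v x + g x + β)| ≤ W ∧ ε * N < ‖Del (fun m => if m ∈ A i then 1 else 0) f (2 * B * N) h‖ := by
      intro x hx
      rw [mem_filter] at hx
      obtain ⟨_, i, h3⟩ := hx
      rw [mem_biUnion]
      exact ⟨i, mem_univ _, mem_filter.2 ⟨mem_univ _, h3⟩⟩
    refine (Nat.cast_le.2 (card_le_card hsub)).trans ?_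
    refine (Nat.cast_le.2 card_biUnion_le).trans ?_
    push_cast
    refine (sum_le_sum fun i _ => hone i).trans ?_
    rw [sum_const, card_univ, Fintype.card_fin, nsmul_eq_mul]
    have h8 : 0 ≤ ε * (Fintype.card Z : ℝ) := by positivity
    rw [mul_div_assoc', div_le_iff₀ (by positivity)]
    nlinarith

end Pool.Agent.H96.FL
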