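import Pool.Agent.H96.FL.F
import Pool.Agent.H96.ED.A
import Pool.Graph.R_seed8.H373R2.T7.SupLiou

set_option autoImplicit false

/-! # The Liouville function at integers shifted by integers near `α v + g + β`, with arbitrary weights -/

namespace Pool.Agent.H96.FL

open Finset
open Pool.Agent.H469R2.NK (e norm_e e_add e_zero conj_e)
open Pool.Agent.TH935.GF (En)
open Pool.Agent.H373R2.T7 (ev_L' ev_log' liR)

/-- the Liouville function on the integers -/
noncomputable def lamC (z : ℤ) : ℂ := if 0 < z then liR z.toNat else if z < 0 then liR (-z).toNat else 0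

/-- weights up to `M` -/
noncomputable def cutW (w : ℕ → ℂ) (M : ℕ) (m : ℕ) : ℂ := if m ≤ M then w m else 0

/-- weights up to `M`, in reverse order -/
noncomputable def revW (w : ℕ → ℂ) (M : ℕ) (m : ℕ) : ℂ := if m ≤ M then w (M + 1 - m) else 0

lemma lam_split (w : ℕ → ℂ) (M M' : ℕ) (h : ℤ) (hM : M ≤ M') (hh : |h| + M ≤ M') :
    ∑ m ∈ Icc 1 M, w m * lamC (m + h) = Del (cutW w M) liR M' h + Del (revW w M) liR M' (-h - (M + 1)) := by
  have h1 : Del (cutW w M) liR M' h = ∑ m ∈ Icc 1 M, w m * ext liR M' (m + h) := by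
    unfold Del
    rw [← sum_subset (Icc_subset_Icc_right hM)]
    · refine sum_congr rfl fun m hm => ?_
      unfold cutW
      rw [if_pos (mem_Icc.1 hm).2]
    · intro m hm hm'
      unfold cutW
      rw [if_neg (by
        intro h2
        exact hm' (mem_Icc.2 ⟨(mem_Icc.1 hm).1, h2⟩)), zero_mul]
  have h2 : Del (revW w M) liR M' (-h - (M + 1)) = ∑ m ∈ Icc 1 M, w m * ext liR M' (-(m + h)) := by
    unfold Del
    rw [← sum_subset (Icc_subset_Icc_right hM)]
    · apply sum_bij (fun m _ => M + 1 - m)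
      · intro m hm
        rw [mem_Icc] at hm ⊢
        omega
      · intro m hm m' hm' h3
        rw [mem_Icc] at hm hm'
        omega
      · intro m hm
        rw [mem_Icc] at hm
        exact ⟨M + 1 - m, mem_Icc.2 (by omega), by omega⟩
      · intro m hm
        rw [mem_Icc] at hm
        unfold revW
        rw [if_pos hm.2]
        congr 2
        push_cast [Nat.cast_sub (by omega : m ≤ M + 1)]
        ring
    · intro m hm hm'
      unfold revW
      rw [if_neg (by
        intro h2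
        exact hm' (mem_Icc.2 ⟨(mem_Icc.1 hm).1, h2⟩)), zero_mul]
  rw [h1, h2, ← sum_add_distrib]
  refine sum_congr rfl fun m hm => ?_
  rw [← mul_add]
  congr 1
  rw [mem_Icc] at hm
  have h3 := abs_le.1 (le_refl |h|)
  have h4 : (m : ℤ) ≤ M := by exact_mod_cast hm.2
  unfold lamC ext
  rcases lt_trichotomy ((m : ℤ) + h) 0 with h5 | h5 | h5
  · rw [if_neg (by omega), if_pos h5, if_neg (by omega), if_pos (by constructor <;> omega), zero_add]
  · rw [h5]
    simp
  · rw [if_pos h5, if_pos (by constructor <;> omega), if_neg (by omega), add_zero]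

lemma norm_lamC (z : ℤ) : ‖lamC z‖ ≤ 1 := by
  unfold lamC
  split_ifs
  · exact Pool.Agent.H373R2.T7.liR_norm _
  · exact Pool.Agent.H373R2.T7.liR_norm _
  · simp

open Classical in
theorem liou_main (p c B T U : ℕ) (hB : 1 ≤ B) : ∃ C : ℕ, ∀ D : ℕ, ∃ N₀ : ℕ, ∀ N : ℕ, N₀ ≤ N →
    ∀ (Z : Type) [Fintype Z] (v : Z → ℤ), (∀ x, |v x| ≤ B * N) →
    (En p v : ℝ) * N ≤ Real.log N ^ c * (Fintype.card Z : ℝ) ^ (2 * p) → ∀ g : Z → ℝ,
    ∀ (ι : Type) (I : Finset ι), (I.card : ℝ) ≤ Real.log N ^ T →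
    ∀ w : ι → ℕ → ℂ, (∀ i ∈ I, ∀ m, ‖w i m‖ ≤ Real.log N ^ T) →
    ∃ 𝓔 : Set ℝ, Cov 𝓔 (Real.log N ^ C) (1 / Real.log N ^ D) ∧ ∀ α ∉ 𝓔, ∀ β : ℝ,
      (((univ : Finset Z).filter fun x => ∃ H : ℝ, 1 ≤ H ∧ H ≤ N ∧ H / Real.log N ^ U <
        ((win (α * v x + g x + β) H).filter (fun h : ℤ => |h| ≤ B * N ∧ ∃ i ∈ I, ∃ M : ℕ, M ≤ B * N ∧
          N / Real.log N ^ U < ‖∑ m ∈ Icc 1 M, w i m * lamC (m + h)‖)).card).card : ℝ) ≤
        Fintype.card Z / Real.log N ^ U := by
  obtain ⟨U', hU'⟩ : ∃ U', U' = 2 * T + 2 * U + 8 := ⟨_, rfl⟩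
  obtain ⟨c', hc'⟩ : ∃ c', c' = c + 2 * T + U + 5 := ⟨_, rfl⟩
  obtain ⟨C, hC⟩ := fl_log p c' (2 * B) U' (by omega)
  refine ⟨C + 1, fun D => ?_⟩
  obtain ⟨A, N1, h1⟩ := hC D
  obtain ⟨N2, h2⟩ := Pool.Agent.H373R2.T7.sup_liou (A + 1)
  obtain ⟨n3, h3⟩ := ev_L' (8 * B + 16)
  obtain ⟨n4, h4⟩ := ev_log' (T + U + 3) 1
  refine ⟨max (max (max N1 N2) n4) (max n3 3), fun N hN Z _ v hv hE g ι I hI w hw => ?_⟩
  have b1 : N1 ≤ N := by omega
  have b2 : N2 ≤ N := by omega
  have a4 := h4 N (by omega)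
  have a3 := h3 N (le_trans (le_trans (le_max_left _ _) (le_max_right _ _)) hN)
  have b4 : 3 ≤ N := le_trans (le_trans (le_max_right _ _) (le_max_right _ _)) hN
  have hN0 : (0 : ℝ) < N := by exact_mod_cast (by omega : 0 < N)
  have hB1 : (1 : ℝ) ≤ B := by exact_mod_cast hB
  obtain ⟨L, hL⟩ : ∃ L, L = Real.log (N : ℝ) := ⟨_, rfl⟩
  rw [← hL] at a3 a4 hE hI hw ⊢
  have hL16 : 16 ≤ L := by linarith
  have hL8B : 8 * B ≤ L := by linarith
  have hL1 : 1 ≤ L := by linarith
  have hL0 : 0 < L := by linarith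
  have hpow : ∀ k : ℕ, 0 < L ^ k := fun k => by positivity
  have hpow1 : ∀ k : ℕ, 1 ≤ L ^ k := fun k => one_le_pow₀ hL1
  have hmono : ∀ a b : ℕ, a ≤ b → L ^ a ≤ L ^ b := fun a b hab => pow_le_pow_right₀ hL1 hab
  -- the grid
  obtain ⟨K, hK⟩ : ∃ K : ℕ, K = ⌈L ^ (T + U + 3)⌉₊ := ⟨_, rfl⟩
  have hK1 : L ^ (T + U + 3) ≤ K := by rw [hK]; exact Nat.le_ceil _
  have hK2 : (K : ℝ) + 1 ≤ L ^ (T + U + 4) / 4 := by
    have h5 : (K : ℝ) < L ^ (T + U + 3) + 1 := by rw [hK]; exact Nat.ceil_lt_add_one (hpow _).le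
    have h6 : L ^ (T + U + 4) = L ^ (T + U + 3) * L := pow_succ _ _
    have h7 := hpow1 (T + U + 3)
    rw [h6]
    nlinarith
  have hK0 : (0 : ℝ) < K := (hpow _).trans_le hK1
  have hKn : 0 < K := by exact_mod_cast hK0
  obtain ⟨M₀, hM₀⟩ : ∃ M₀, M₀ = B * N := ⟨_, rfl⟩
  have hM₀r : (M₀ : ℝ) = B * N := by rw [hM₀]; push_cast; rfl
  obtain ⟨ct, hct⟩ : ∃ ct : ℕ → ℕ, ct = fun t => t * M₀ / K := ⟨_, rfl⟩
  obtain ⟨I', hI'⟩ : ∃ I' : Finset (ι × ℕ), I' = I ×ˢ range (K + 1) := ⟨_, rfl⟩
  have hI'c : (I'.card : ℝ) ≤ L ^ c' := by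
    rw [hI', card_product, card_range]
    push_cast
    calc (I.card : ℝ) * (K + 1) ≤ L ^ T * (L ^ (T + U + 4) / 4) := mul_le_mul hI hK2 (by positivity) (hpow _).le
      _ ≤ L ^ T * L ^ (T + U + 4) := by
          apply mul_le_mul_of_nonneg_left _ (hpow _).le
          have := hpow (T + U + 4)
          linarith
      _ = L ^ (T + (T + U + 4)) := (pow_add _ _ _).symm
      _ ≤ L ^ c' := hmono _ _ (by omega)
  obtain ⟨u, hu⟩ : ∃ u : ι × ℕ → ℕ → ℂ, u = fun q => cutW (w q.1) (ct q.2) := ⟨_, rfl⟩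
  have hun : ∀ q ∈ I', ∀ m, ‖u q m‖ ≤ L ^ c' := by
    intro q hq m
    rw [hI', mem_product] at hq
    rw [hu]
    simp only [cutW]
    split_ifs
    · exact (hw _ hq.1 m).trans (hmono _ _ (by omega))
    · rw [norm_zero]
      exact (hpow _).le
  have hcutn : ∀ q ∈ I', ∀ m, ‖cutW (u q) M₀ m‖ ≤ L ^ c' := by
    intro q hq m
    unfold cutW
    split_ifs
    · exact hun q hq m
    · rw [norm_zero]
      exact (hpow _).le
  have hrevn : ∀ q ∈ I', ∀ m, ‖revW (u q) M₀ m‖ ≤ L ^ c' := by
    intro q hq m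
    unfold revW
    split_ifs
    · exact hun q hq _
    · rw [norm_zero]
      exact (hpow _).le
  have hlin : ∀ m ∈ Icc 1 (2 * B * N), ‖liR m‖ ≤ Real.log N ^ c' := by
    intro m _
    rw [← hL]
    exact (Pool.Agent.H373R2.T7.liR_norm m).trans (hpow1 _)
  have hsup : ∀ θ : ℝ, ‖∑ m ∈ Icc 1 (2 * B * N), liR m * e (m * θ)‖ ≤ N / Real.log N ^ A := by
    intro θ
    have h5 := h2 (2 * B * N) (b2.trans (by nlinarith)) θ
    have e1 : ∑ m ∈ Icc 1 (2 * B * N), liR m * e (m * θ) =
        ∑ m ∈ Icc 1 (2 * B * N), liR m * Pool.Agent.H807R2.Dav.ee ((m : ℝ) * θ) :=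
      sum_congr rfl fun m _ => by rw [ee_e]
    rw [e1]
    refine h5.trans ?_
    rw [← hL]
    have h6 : L ≤ Real.log ((2 * B * N : ℕ) : ℝ) := by
      rw [hL]
      apply Real.log_le_log hN0
      exact_mod_cast (by nlinarith : N ≤ 2 * B * N)
    have h7 : L ^ (A + 1) ≤ Real.log ((2 * B * N : ℕ) : ℝ) ^ (A + 1) := pow_le_pow_left₀ hL0.le h6 _
    calc ((2 * B * N : ℕ) : ℝ) / Real.log ((2 * B * N : ℕ) : ℝ) ^ (A + 1) ≤ ((2 * B * N : ℕ) : ℝ) / L ^ (A + 1) :=
          div_le_div_of_nonneg_left (by positivity) (hpow _) h7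
      _ ≤ (L * N) / L ^ (A + 1) := by
          apply div_le_div_of_nonneg_right _ (hpow _).le
          push_cast
          apply mul_le_mul_of_nonneg_right _ hN0.le
          linarith
      _ = N / L ^ A := by rw [pow_succ]; field_simp
  have hEn : (En p v : ℝ) * N ≤ Real.log N ^ c' * (Fintype.card Z : ℝ) ^ (2 * p) := by
    rw [← hL]
    exact hE.trans (mul_le_mul_of_nonneg_right (hmono _ _ (by omega)) (by positivity))
  have hEn' : (En p (fun z => -v z) : ℝ) * N ≤ Real.log N ^ c' * (Fintype.card Z : ℝ) ^ (2 * p) := by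
    rw [Pool.Agent.H96.ED.En_neg]
    exact hEn
  have hv1 : ∀ z, |v z| ≤ (2 * B : ℕ) * N := by
    intro z
    refine (hv z).trans ?_
    push_cast
    have : (0 : ℤ) ≤ (B : ℤ) * N := by positivity
    linarith
  have hv2 : ∀ z, |-v z| ≤ (2 * B : ℕ) * N := by
    intro z
    rw [abs_neg]
    exact hv1 z
  obtain ⟨E₁, hE₁, hE₁'⟩ := h1 N b1 Z v hv1 hEn g (ι × ℕ) I' (by rw [← hL]; exact hI'c) (fun q => cutW (u q) M₀)
    (fun q hq m _ => by rw [← hL]; exact hcutn q hq m) liR hlin hsup
  obtain ⟨E₂, hE₂, hE₂'⟩ := h1 N b1 Z (fun z => -v z) hv2 hEn' (fun z => -g z) (ι × ℕ) I' (by rw [← hL]; exact hI'c)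
    (fun q => revW (u q) M₀) (fun q hq m _ => by rw [← hL]; exact hrevn q hq m) liR hlin hsup
  rw [← hL] at hE₁ hE₂
  refine ⟨E₁ ∪ E₂, ?_, fun α hα β => ?_⟩
  · have h5 := Cov.iUnion (univ : Finset Bool) (fun b => if b then E₁ else E₂) (L ^ C) (1 / L ^ D) (by
      intro b _
      cases b
      · simpa using hE₂
      · simpa using hE₁)
    refine h5.mono ?_ ?_ le_rfl
    · intro x hx
      rcases hx with hx | hx
      · exact Set.mem_iUnion₂.2 ⟨true, mem_univ _, by simpa using hx⟩
      · exact Set.mem_iUnion₂.2 ⟨false, mem_univ _, by simpa using hx⟩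
    · rw [card_univ, Fintype.card_bool, pow_succ]
      push_cast
      have := hpow C
      nlinarith
  · have hα1 : α ∉ E₁ := fun h => hα (Or.inl h)
    have hα2 : α ∉ E₂ := fun h => hα (Or.inr h)
    have h5 := hE₁' α hα1 β
    have h6 := hE₂' α hα2 (-β - (M₀ + 1))
    rw [← hL] at h5 h6
    obtain ⟨F₁, hF₁⟩ : ∃ F₁ : Finset Z, F₁ = ((univ : Finset Z).filter fun z => ∃ i ∈ I', ∃ H : ℝ, 1 ≤ H ∧ H ≤ N ∧ H / L ^ U' <
        ((win (α * v z + g z + β) H).filter (fun h => N / L ^ U' < ‖Del (cutW (u i) M₀) liR (2 * B * N) h‖)).card) := ⟨_, rfl⟩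
    obtain ⟨F₂, hF₂⟩ : ∃ F₂ : Finset Z, F₂ = ((univ : Finset Z).filter fun z => ∃ i ∈ I', ∃ H : ℝ, 1 ≤ H ∧ H ≤ N ∧ H / L ^ U' <
        ((win (α * ((-v z : ℤ) : ℝ) + -g z + (-β - (M₀ + 1))) H).filter
          (fun h => N / L ^ U' < ‖Del (revW (u i) M₀) liR (2 * B * N) h‖)).card) := ⟨_, rfl⟩
    rw [← hF₁] at h5
    rw [← hF₂] at h6
    have hsub : ((univ : Finset Z).filter fun x => ∃ H : ℝ, 1 ≤ H ∧ H ≤ N ∧ H / L ^ U <
        ((win (α * v x + g x + β) H).filter (fun h : ℤ => |h| ≤ B * N ∧ ∃ i ∈ I, ∃ M : ℕ, M ≤ B * N ∧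
          N / L ^ U < ‖∑ m ∈ Icc 1 M, w i m * lamC (m + h)‖)).card) ⊆ F₁ ∪ F₂ := by
      intro x hx
      rw [mem_filter] at hx
      obtain ⟨_, H, hH1, hH2, hH3⟩ := hx
      by_contra hcon
      rw [mem_union, not_or, hF₁, hF₂, mem_filter, mem_filter] at hcon
      push Not at hcon
      obtain ⟨c1, c2⟩ := hcon
      have c1' := c1 (mem_univ _)
      have c2' := c2 (mem_univ _)
      obtain ⟨G₁, hG₁⟩ : ∃ G₁ : ι × ℕ → Finset ℤ, G₁ = fun q => (win (α * v x + g x + β) H).filter
        (fun h => N / L ^ U' < ‖Del (cutW (u q) M₀) liR (2 * B * N) h‖) := ⟨_, rfl⟩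
      obtain ⟨G₂, hG₂⟩ : ∃ G₂ : ι × ℕ → Finset ℤ, G₂ = fun q => (win (α * ((-v x : ℤ) : ℝ) + -g x + (-β - (M₀ + 1))) H).filter
        (fun h => N / L ^ U' < ‖Del (revW (u q) M₀) liR (2 * B * N) h‖) := ⟨_, rfl⟩
      have d1 : ∀ q ∈ I', ((G₁ q).card : ℝ) ≤ H / L ^ U' := by
        intro q hq
        rw [hG₁]
        exact c1' q hq H hH1 hH2
      have d2 : ∀ q ∈ I', ((G₂ q).card : ℝ) ≤ H / L ^ U' := by
        intro q hq
        rw [hG₂]
        exact c2' q hq H hH1 hH2
      have hcov : ((win (α * v x + g x + β) H).filter (fun h : ℤ => |h| ≤ B * N ∧ ∃ i ∈ I, ∃ M : ℕ, M ≤ B * N ∧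
          N / L ^ U < ‖∑ m ∈ Icc 1 M, w i m * lamC (m + h)‖)) ⊆
          I'.biUnion (fun q => G₁ q ∪ (G₂ q).image (fun h => -h - (M₀ + 1))) := by
        intro h hh
        rw [mem_filter] at hh
        obtain ⟨hw1, hh1, i, hi, M, hM, hh2⟩ := hh
        -- the grid point
        obtain ⟨t, ht⟩ : ∃ t : ℕ, t = M * K / M₀ := ⟨_, rfl⟩
        have hM₀0 : 0 < M₀ := by rw [hM₀]; positivity
        have ht1 : t ≤ K := by
          rw [ht]
          apply Nat.div_le_of_le_mul
          rw [← hM₀] at hM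
          nlinarith
        have hct1 : ct t ≤ M := by
          rw [hct]
          simp only
          apply Nat.div_le_of_le_mul
          rw [ht]
          calc M * K / M₀ * M₀ ≤ M * K := Nat.div_mul_le_self _ _
            _ = K * M := Nat.mul_comm _ _
        have hct2 : (M : ℝ) - ct t ≤ M₀ / K + 1 := by
          have e1 : M * K < (t + 1) * M₀ := by
            rw [ht]
            exact Nat.lt_mul_of_div_lt (Nat.lt_succ_self _) hM₀0
          have e2 : t * M₀ < (ct t + 1) * K := by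
            rw [hct]
            exact Nat.lt_mul_of_div_lt (Nat.lt_succ_self _) hKn
          have e1' : (M : ℝ) * K < (t + 1) * M₀ := by exact_mod_cast e1
          have e2' : (t : ℝ) * M₀ < (ct t + 1) * K := by exact_mod_cast e2
          have e3 : ((M : ℝ) - ct t) * K ≤ (M₀ / K + 1) * K := by
            have e4 : ((M₀ : ℝ) / K + 1) * K = M₀ + K := by field_simp
            rw [e4]
            linarith
          exact le_of_mul_le_mul_right e3 hK0
        have hq : (i, t) ∈ I' := by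
          rw [hI', mem_product, mem_range]
          exact ⟨hi, by omega⟩
        -- the sum up to the grid point
        have hsplit := lam_split (u (i, t)) M₀ (2 * B * N) h (by rw [hM₀]; nlinarith) (by
          rw [hM₀]
          push_cast
          linarith)
        have e5 : ∑ m ∈ Icc 1 M₀, u (i, t) m * lamC (m + h) = ∑ m ∈ Icc 1 (ct t), w i m * lamC (m + h) := by
          have e6 : ct t ≤ M₀ := hct1.trans (by rw [hM₀]; exact hM)
          rw [← sum_subset (Icc_subset_Icc_right e6)]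
          · refine sum_congr rfl fun m hm => ?_
            rw [hu]
            simp only [cutW]
            rw [if_pos (mem_Icc.1 hm).2]
          · intro m hm hm'
            rw [hu]
            simp only [cutW]
            rw [if_neg (fun h7 => hm' (mem_Icc.2 ⟨(mem_Icc.1 hm).1, h7⟩)), zero_mul]
        have e6 : ‖∑ m ∈ Icc 1 M, w i m * lamC (m + h) - ∑ m ∈ Icc 1 (ct t), w i m * lamC (m + h)‖ ≤ N / (2 * L ^ U) := by
          have e7 : ∑ m ∈ Icc 1 M, w i m * lamC (m + h) = ∑ m ∈ Icc 1 (ct t), w i m * lamC (m + h) +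
              ∑ m ∈ Ioc (ct t) M, w i m * lamC (m + h) := by
            have e8 : Icc 1 M = Icc 1 (ct t) ∪ Ioc (ct t) M := by
              ext m
              simp only [mem_Icc, mem_union, mem_Ioc]
              omega
            rw [e8, sum_union (by
              rw [disjoint_left]
              intro m hm hm'
              rw [mem_Icc] at hm
              rw [mem_Ioc] at hm'
              omega)]
          rw [e7, add_sub_cancel_left]
          have e8 : ∀ m ∈ Ioc (ct t) M, ‖w i m * lamC (m + h)‖ ≤ L ^ T := by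
            intro m _
            rw [norm_mul]
            calc ‖w i m‖ * ‖lamC (m + h)‖ ≤ L ^ T * 1 := mul_le_mul (hw i hi m) (norm_lamC _) (norm_nonneg _) (hpow _).le
              _ = _ := mul_one _
          have e9 := norm_sum_le_of_le _ e8
          rw [sum_const, Nat.card_Ioc, nsmul_eq_mul, Nat.cast_sub hct1] at e9
          refine e9.trans ?_
          have hNL : L ^ (T + U + 3) ≤ N := by
            rw [one_mul] at a4
            refine a4.trans ?_
            rw [Real.sqrt_le_left (by positivity)]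
            have : (1 : ℝ) ≤ N := by exact_mod_cast (by omega : 1 ≤ N)
            nlinarith
          calc ((M : ℝ) - ct t) * L ^ T ≤ (M₀ / K + 1) * L ^ T := mul_le_mul_of_nonneg_right hct2 (hpow _).le
            _ ≤ (B * N / L ^ (T + U + 3) + 1) * L ^ T := by
                apply mul_le_mul_of_nonneg_right _ (hpow _).le
                rw [hM₀r]
                have := div_le_div_of_nonneg_left (by positivity : (0 : ℝ) ≤ B * N) (hpow (T + U + 3)) hK1
                linarith
            _ ≤ (B * N / L ^ (T + U + 3) + N / L ^ (T + U + 3)) * L ^ T := by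
                apply mul_le_mul_of_nonneg_right _ (hpow _).le
                have : 1 ≤ (N : ℝ) / L ^ (T + U + 3) := by rw [le_div_iff₀ (hpow _), one_mul]; exact hNL
                linarith
            _ = (B + 1) / L ^ 3 * (N / L ^ U) := by
                have e10 : L ^ (T + U + 3) = L ^ T * L ^ U * L ^ 3 := by rw [← pow_add, ← pow_add]
                rw [e10]
                field_simp
            _ ≤ 1 / 2 * (N / L ^ U) := by
                apply mul_le_mul_of_nonneg_right _ (by positivity)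
                rw [div_le_iff₀ (hpow 3)]
                have e11 : L ≤ L ^ 3 := le_self_pow₀ hL1 (by norm_num)
                linarith
            _ = N / (2 * L ^ U) := by ring
        have e7 : N / (2 * L ^ U) < ‖∑ m ∈ Icc 1 (ct t), w i m * lamC (m + h)‖ := by
          have e8 := norm_sub_norm_le (∑ m ∈ Icc 1 M, w i m * lamC (m + h)) (∑ m ∈ Icc 1 (ct t), w i m * lamC (m + h))
          have e9 : N / L ^ U = N / (2 * L ^ U) + N / (2 * L ^ U) := by field_simp; ring
          linarith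
        rw [← e5, hsplit] at e7
        have e8 := norm_add_le (Del (cutW (u (i, t)) M₀) liR (2 * B * N) h) (Del (revW (u (i, t)) M₀) liR (2 * B * N) (-h - (M₀ + 1)))
        have e9 : (N : ℝ) / L ^ U' ≤ N / (4 * L ^ U) := by
          apply div_le_div_of_nonneg_left hN0.le (by positivity)
          calc 4 * L ^ U ≤ L * L ^ U := mul_le_mul_of_nonneg_right (by linarith) (hpow _).le
            _ = L ^ (U + 1) := by rw [pow_succ]; ring
            _ ≤ L ^ U' := hmono _ _ (by omega)
        have e10 : (N : ℝ) / (2 * L ^ U) = N / (4 * L ^ U) + N / (4 * L ^ U) := by field_simp; ring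
        rw [mem_biUnion]
        refine ⟨(i, t), hq, ?_⟩
        rw [mem_union]
        rcases lt_or_ge ((N : ℝ) / L ^ U') ‖Del (cutW (u (i, t)) M₀) liR (2 * B * N) h‖ with e11 | e11
        · left
          rw [hG₁, mem_filter]
          exact ⟨hw1, e11⟩
        · right
          rw [mem_image]
          refine ⟨-h - (M₀ + 1), ?_, by ring⟩
          rw [hG₂, mem_filter]
          refine ⟨?_, by linarith⟩
          rw [mem_win] at hw1 ⊢
          refine le_trans (le_of_eq ?_) hw1
          push_cast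
          rw [← abs_neg]
          congr 1
          ring
      have e1 : (((win (α * v x + g x + β) H).filter (fun h : ℤ => |h| ≤ B * N ∧ ∃ i ∈ I, ∃ M : ℕ, M ≤ B * N ∧
          N / L ^ U < ‖∑ m ∈ Icc 1 M, w i m * lamC (m + h)‖)).card : ℝ) ≤ I'.card * (2 * (H / L ^ U')) := by
        have e2 := (card_le_card hcov).trans card_biUnion_le
        have e3 : ∑ q ∈ I', ((G₁ q ∪ (G₂ q).image (fun h => -h - (M₀ + 1))).card : ℝ) ≤ ∑ _q ∈ I', 2 * (H / L ^ U') := by
          refine sum_le_sum fun q hq => ?_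
          have e4 : ((G₁ q ∪ (G₂ q).image (fun h => -h - (M₀ + 1))).card : ℝ) ≤ (G₁ q).card + (G₂ q).card := by
            have := (card_union_le (G₁ q) ((G₂ q).image (fun h => -h - (M₀ + 1)))).trans
              (Nat.add_le_add_left card_image_le _)
            exact_mod_cast this
          linarith [d1 q hq, d2 q hq]
        rw [sum_const, nsmul_eq_mul] at e3
        refine le_trans ?_ e3
        exact_mod_cast e2
      have e2 : (I'.card : ℝ) * (2 * (H / L ^ U')) ≤ H / L ^ U := by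
        have e3 : (I'.card : ℝ) ≤ L ^ (2 * T + U + 4) := by
          rw [hI', card_product, card_range]
          push_cast
          calc (I.card : ℝ) * (K + 1) ≤ L ^ T * (L ^ (T + U + 4) / 4) := mul_le_mul hI hK2 (by positivity) (hpow _).le
            _ ≤ L ^ T * L ^ (T + U + 4) := by
                apply mul_le_mul_of_nonneg_left _ (hpow _).le
                have := hpow (T + U + 4)
                linarith
            _ = L ^ (2 * T + U + 4) := by rw [← pow_add]; congr 1; omega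
        have hH0 : 0 < H := by linarith
        calc (I'.card : ℝ) * (2 * (H / L ^ U')) ≤ L ^ (2 * T + U + 4) * (2 * (H / L ^ U')) :=
              mul_le_mul_of_nonneg_right e3 (by positivity)
          _ = 2 * (H / (L ^ U * L ^ 4)) := by
              have e4 : L ^ U' = L ^ (2 * T + U + 4) * (L ^ U * L ^ 4) := by
                rw [← pow_add, ← pow_add, hU']
                congr 1
                omega
              rw [e4]
              field_simp
          _ = 2 / L ^ 4 * (H / L ^ U) := by field_simp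
          _ ≤ 1 * (H / L ^ U) := by
              apply mul_le_mul_of_nonneg_right _ (by positivity)
              rw [div_le_one (hpow 4)]
              have := le_self_pow₀ hL1 (by norm_num : (4 : ℕ) ≠ 0)
              linarith
          _ = _ := one_mul _
      linarith
    calc (((univ : Finset Z).filter fun x => ∃ H : ℝ, 1 ≤ H ∧ H ≤ N ∧ H / L ^ U <
        ((win (α * v x + g x + β) H).filter (fun h : ℤ => |h| ≤ B * N ∧ ∃ i ∈ I, ∃ M : ℕ, M ≤ B * N ∧
          N / L ^ U < ‖∑ m ∈ Icc 1 M, w i m * lamC (m + h)‖)).card).card : ℝ) ≤ ((F₁ ∪ F₂).card : ℝ) := by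
          exact_mod_cast card_le_card hsub
      _ ≤ F₁.card + F₂.card := by exact_mod_cast card_union_le _ _
      _ ≤ Fintype.card Z / L ^ U' + Fintype.card Z / L ^ U' := add_le_add h5 h6
      _ ≤ Fintype.card Z / L ^ U := by
          have e1 : L ^ U' = L ^ (U' - U) * L ^ U := by rw [← pow_add]; congr 1; omega
          have e2 : L ≤ L ^ (U' - U) := le_self_pow₀ hL1 (by omega)
          have e3 : (Fintype.card Z : ℝ) / L ^ U' + Fintype.card Z / L ^ U' = 2 / L ^ (U' - U) * (Fintype.card Z / L ^ U) := by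
            rw [e1]
            field_simp
            ring
          rw [e3]
          have e4 : 2 / L ^ (U' - U) ≤ 1 := by
            rw [div_le_one (hpow _)]
            linarith
          calc 2 / L ^ (U' - U) * (Fintype.card Z / L ^ U) ≤ 1 * (Fintype.card Z / L ^ U) :=
                mul_le_mul_of_nonneg_right e4 (by positivity)
            _ = _ := one_mul _

end Pool.Agent.H96.FL
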